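import Pool.Agent.H25.DP.Targets3

/-!
# Two dilations: module BIL, the bilinear estimate
-/

set_option autoImplicit false

open Complex MeasureTheory Set Filter Topology

namespace Pool.Agent.H19.DP.BIL

open Pool.Agent.H25.DL Pool.Agent.H25.DP

lemma extend (c g : ℕ → ℂ) (M a b : ℕ) (hab : a ≤ b) :
    ∑ n ∈ Finset.Ico M (a * M), c n * g n =
      ∑ n ∈ Finset.Ico M (b * M), (if n < a * M then c n else 0) * g n := by
  have h : Finset.Ico M (a * M) ⊆ Finset.Ico M (b * M) :=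
    Finset.Ico_subset_Ico_right (Nat.mul_le_mul_right M hab)
  rw [← Finset.sum_subset h]
  · refine Finset.sum_congr rfl fun n hn => ?_
    rw [if_pos (Finset.mem_Ico.1 hn).2]
  · intro n hn hn'
    rw [if_neg, zero_mul]
    intro hlt
    exact hn' (Finset.mem_Ico.2 ⟨(Finset.mem_Ico.1 hn).1, hlt⟩)

lemma dyadic (F : ℕ → ℂ) (K q : ℕ) :
    ∑ m ∈ Finset.Ico K (2 ^ q * K), F m =
      ∑ i ∈ Finset.range q, ∑ m ∈ Finset.Ico (2 ^ i * K) (2 * (2 ^ i * K)), F m := by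
  induction q with
  | zero => simp
  | succ q ih =>
    have h1 : 1 ≤ 2 ^ q := Nat.one_le_two_pow
    have h2 : 2 * (2 ^ q * K) = 2 ^ (q + 1) * K := by ring
    have h3 : K ≤ 2 ^ q * K := Nat.le_mul_of_pos_left _ (by positivity)
    have h4 : 2 ^ q * K ≤ 2 ^ (q + 1) * K := by rw [← h2]; omega
    rw [Finset.sum_range_succ, ← ih, h2, Finset.sum_Ico_consecutive F h3 h4]

variable {ι : Type} [Fintype ι]

lemma log_SZ (j : ι → ℕ) : Real.log (SZ j) = ∑ l, (j l : ℝ) * Real.log 2 := by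
  rw [SZ_cast, Real.log_prod fun l _ => by positivity]
  refine Finset.sum_congr rfl fun l _ => ?_
  rw [Real.log_pow]

lemma mains_log (f : ι → Fac) (r D T : ℝ) (hcl : ∀ l, (f l).r = r ∨ (f l).r = 1)
    [DecidablePred fun l => (f l).r = r] (j : ι → ℕ) (hj : j ∈ mains f 1 D T) :
    r * Real.log (SZ (fun l : {l // (f l).r = r} => j l)) +
      Real.log (SZ (fun l : {l // ¬ (f l).r = r} => j l)) ≤ D * Real.log T := by
  have h1 : ∑ l, (j l : ℝ) * (f l).r * Real.log 2 ≤ D * Real.log T := by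
    unfold mains at hj
    exact (Finset.mem_filter.1 hj).2
  refine le_trans (le_of_eq ?_) h1
  rw [log_SZ, log_SZ, ← Fintype.sum_subtype_add_sum_subtype (fun l => (f l).r = r)
    (fun l => (j l : ℝ) * (f l).r * Real.log 2), Finset.mul_sum]
  congr 1
  · refine Finset.sum_congr rfl fun l _ => ?_
    rw [l.2]; ring
  · refine Finset.sum_congr rfl fun l _ => ?_
    have := (hcl l).resolve_left l.2
    rw [this]; ring

/-- the two classes as Dirichlet polynomials -/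
lemma two_forms (h1 : T_PX) (f : ι → Fac) (r e : ℝ) (hcl : ∀ l, (f l).r = r ∨ (f l).r = 1)
    [DecidablePred fun l => (f l).r = r] (he : 0 < e) : ∃ C : ℝ, 0 < C ∧ ∀ j : ι → ℕ,
    ∃ c c' : ℕ → ℂ,
      (∀ n, ‖c n‖ ≤ C * (SZ (fun l : {l // (f l).r = r} => j l) : ℝ) ^ (e - 1 / 2)) ∧
      (∀ n, ‖c' n‖ ≤ C * (SZ (fun l : {l // ¬ (f l).r = r} => j l) : ℝ) ^ (e - 1 / 2)) ∧
      ∀ t : ℝ, Pj f j (1 / 2 + t * I) =
        (∑ n ∈ Finset.Ico (SZ (fun l : {l // (f l).r = r} => j l))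
          (2 ^ (Fintype.card ι + 1) * SZ (fun l : {l // (f l).r = r} => j l)),
            c n * en n (r * t)) *
        ∑ n ∈ Finset.Ico (SZ (fun l : {l // ¬ (f l).r = r} => j l))
          (2 ^ (Fintype.card ι + 1) * SZ (fun l : {l // ¬ (f l).r = r} => j l)),
            c' n * en n (1 * t) := by
  obtain ⟨Ca, hCa, ha⟩ := h1 {l // (f l).r = r} (fun l => f l) r e (fun l => l.2) he
  obtain ⟨Cb, hCb, hb⟩ := h1 {l // ¬ (f l).r = r} (fun l => f l) 1 e
    (fun l => (hcl l).resolve_left l.2) he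
  refine ⟨max Ca Cb, lt_max_of_lt_left hCa, fun j => ?_⟩
  obtain ⟨c, hc, hcP⟩ := ha (fun l => j l)
  obtain ⟨c', hc', hcP'⟩ := hb (fun l => j l)
  set M := SZ (fun l : {l // (f l).r = r} => j l) with hM
  set K := SZ (fun l : {l // ¬ (f l).r = r} => j l) with hK
  refine ⟨fun n => if n < 2 ^ (Fintype.card {l // (f l).r = r} + 1) * M then c n else 0,
    fun n => if n < 2 ^ (Fintype.card {l // ¬ (f l).r = r} + 1) * K then c' n else 0,
    fun n => ?_, fun n => ?_, fun t => ?_⟩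
  · have h2 : Ca * (M : ℝ) ^ (e - 1 / 2) ≤ max Ca Cb * (M : ℝ) ^ (e - 1 / 2) := by
      gcongr
      exact le_max_left _ _
    dsimp only
    split_ifs
    · exact (hc n).trans h2
    · rw [norm_zero]
      exact le_trans (by positivity) h2
  · have h2 : Cb * (K : ℝ) ^ (e - 1 / 2) ≤ max Ca Cb * (K : ℝ) ^ (e - 1 / 2) := by
      gcongr
      exact le_max_right _ _
    dsimp only
    split_ifs
    · exact (hc' n).trans h2
    · rw [norm_zero]
      exact le_trans (by positivity) h2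
  · rw [Pj_split f (fun l => (f l).r = r) j, hcP t, hcP' t]
    congr 1
    · exact extend c (fun n => en n (r * t)) M _ _
        (Nat.pow_le_pow_right two_pos (Nat.succ_le_succ (Fintype.card_subtype_le _)))
    · exact extend c' (fun n => en n (1 * t)) K _ _
        (Nat.pow_le_pow_right two_pos (Nat.succ_le_succ (Fintype.card_subtype_le _)))

/-- the exponents -/
lemma exponents {T M K X r d η c₀ : ℝ} (hT : 1 ≤ T) (hM : 1 ≤ M) (hK : 1 ≤ K) (hX : 1 ≤ X)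
    (hr : 2 ≤ r) (hη : 0 < η) (hη0 : η ≤ 4 * c₀) (hc₀ : 16 * c₀ = 4 / 3 - d) (hd : 1 < d)
    (h1 : r * Real.log M + Real.log K ≤ (1 - η / 4) * Real.log T)
    (h2 : Real.log X ≤ (d - 1 + η) * Real.log T) :
    Real.sqrt (M * K * X) ≤ T ^ (3 / 4 : ℝ) ∧ Real.sqrt (M * K * T) ≤ T ^ (1 - η / 8) ∧
    M * K ≤ T ∧
    (M * X * T * (Real.sqrt T + K / Real.sqrt T) ≤ 2 * T ^ (2 - 12 * c₀) ∨
      M * X * T * (Real.sqrt K * T ^ (1 / 6 : ℝ) + K * T ^ (-(1 / 6) : ℝ)) ≤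
        2 * T ^ (2 - 12 * c₀)) := by
  have hT0 : 0 < T := by linarith
  have hM0 : 0 < M := by linarith
  have hK0 : 0 < K := by linarith
  have hX0 : 0 < X := by linarith
  have ht : 0 ≤ Real.log T := Real.log_nonneg hT
  have hm : 0 ≤ Real.log M := Real.log_nonneg hM
  have hk : 0 ≤ Real.log K := Real.log_nonneg hK
  have hx : 0 ≤ Real.log X := Real.log_nonneg hX
  obtain ⟨t, rfl⟩ : ∃ t, T = Real.exp t := ⟨Real.log T, (Real.exp_log hT0).symm⟩
  obtain ⟨m, rfl⟩ : ∃ t, M = Real.exp t := ⟨Real.log M, (Real.exp_log hM0).symm⟩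
  obtain ⟨k, rfl⟩ : ∃ t, K = Real.exp t := ⟨Real.log K, (Real.exp_log hK0).symm⟩
  obtain ⟨x, rfl⟩ : ∃ t, X = Real.exp t := ⟨Real.log X, (Real.exp_log hX0).symm⟩
  simp only [Real.log_exp] at *
  have p1 : 0 ≤ η * t := mul_nonneg hη.le ht
  have p2 : η * t ≤ 4 * (c₀ * t) := by nlinarith
  have p3 : 16 * (c₀ * t) = 4 / 3 * t - d * t := by linear_combination t * hc₀
  have p4 : 2 * m ≤ r * m := mul_le_mul_of_nonneg_right hr hm
  have p5 : t ≤ d * t := by nlinarith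
  have s : ∀ a : ℝ, Real.sqrt (Real.exp a) = Real.exp (a / 2) := fun a => (Real.exp_half a).symm
  refine ⟨?_, ?_, ?_, ?_⟩
  · rw [← Real.exp_add, ← Real.exp_add, s, ← Real.exp_mul]
    refine Real.exp_le_exp.2 ?_
    linarith
  · rw [← Real.exp_add, ← Real.exp_add, s, ← Real.exp_mul]
    refine Real.exp_le_exp.2 ?_
    linarith
  · rw [← Real.exp_add]
    refine Real.exp_le_exp.2 ?_
    linarith
  · by_cases hmt : m ≤ t / 6
    · left
      rw [s, ← Real.exp_sub, ← Real.exp_add, ← Real.exp_add, mul_add, ← Real.exp_add,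
        ← Real.exp_add, ← Real.exp_mul, two_mul]
      refine add_le_add (Real.exp_le_exp.2 ?_) (Real.exp_le_exp.2 ?_)
      · linarith
      · linarith
    · right
      push Not at hmt
      have p6 : t / 6 ≤ (r - 1) * m := by nlinarith
      rw [s, ← Real.exp_mul, ← Real.exp_mul, ← Real.exp_add, ← Real.exp_add, ← Real.exp_add,
        ← Real.exp_add, mul_add, ← Real.exp_add, ← Real.exp_add, ← Real.exp_mul, two_mul]
      refine add_le_add (Real.exp_le_exp.2 ?_) (Real.exp_le_exp.2 ?_)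
      · linarith
      · linarith

/-- rescaling a trilinear form -/
lemma scale (s1 s2 s3 : Finset ℕ) (c c' g : ℕ → ℂ) (W : ℕ → ℕ → ℕ → ℂ) (a b e : ℝ) (ha : 0 < a)
    (hb : 0 < b) (he : 0 < e) :
    ∑ n ∈ s1, ∑ k ∈ s2, ∑ p ∈ s3, c n * c' k * g p * W n k p =
      ((a * b * e : ℝ) : ℂ) *
        ∑ n ∈ s1, ∑ k ∈ s2, ∑ p ∈ s3, (c n / a) * (c' k / b) * (g p / e) * W n k p := by
  rw [Finset.mul_sum]
  refine Finset.sum_congr rfl fun n _ => ?_
  rw [Finset.mul_sum]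
  refine Finset.sum_congr rfl fun k _ => ?_
  rw [Finset.mul_sum]
  refine Finset.sum_congr rfl fun p _ => ?_
  have h1 : (a : ℂ) ≠ 0 := by exact_mod_cast ha.ne'
  have h2 : (b : ℂ) ≠ 0 := by exact_mod_cast hb.ne'
  have h3 : (e : ℂ) ≠ 0 := by exact_mod_cast he.ne'
  push_cast
  field_simp

/-- sizes of the dyadic ranges -/
lemma sizes {T m k k' J x A A' : ℝ} (hT : 1 ≤ T) (hm : 1 ≤ m) (hk : 1 ≤ k) (hx : 1 ≤ x)
    (hJ : 1 ≤ J) (hk' : 0 ≤ k') (hkk : k' ≤ J * k) (hA : 0 ≤ A) (hA' : 0 ≤ A')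
    (hAA : A ≤ J * A') :
    m * k' * x / T + m * k' * Real.sqrt (x * T) + m * x * Real.sqrt (k' * T * A) ≤
      J * (Real.sqrt (m * k * x) * (Real.sqrt (m * k * x) + Real.sqrt (m * k * T) +
        Real.sqrt (m * x * T * A'))) := by
  have hT0 : 0 < T := by linarith
  have hm0 : 0 < m := by linarith
  have hk0 : 0 < k := by linarith
  have hx0 : 0 < x := by linarith
  have e1 : Real.sqrt (m * k * x) * Real.sqrt (m * k * x) = m * k * x :=
    Real.mul_self_sqrt (by positivity)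
  have e2 : Real.sqrt (m * k * x) * Real.sqrt (m * k * T) = m * k * Real.sqrt (x * T) := by
    rw [← Real.sqrt_mul (by positivity), show m * k * x * (m * k * T) = (m * k) ^ 2 * (x * T) by ring,
      Real.sqrt_mul (by positivity), Real.sqrt_sq (by positivity)]
  have e3 : Real.sqrt (m * k * x) * Real.sqrt (m * x * T * A') =
      m * x * Real.sqrt (k * T * A') := by
    rw [← Real.sqrt_mul (by positivity),
      show m * k * x * (m * x * T * A') = (m * x) ^ 2 * (k * T * A') by ring,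
      Real.sqrt_mul (by positivity), Real.sqrt_sq (by positivity)]
  have b1 : m * k' * x / T ≤ J * (m * k * x) := by
    rw [div_le_iff₀ hT0]
    have h1 : m * k' * x ≤ m * (J * k) * x := by gcongr
    have h2 : m * (J * k) * x * 1 ≤ m * (J * k) * x * T := by gcongr
    linarith
  have b2 : m * k' * Real.sqrt (x * T) ≤ J * (m * k * Real.sqrt (x * T)) := by
    have h1 : m * k' * Real.sqrt (x * T) ≤ m * (J * k) * Real.sqrt (x * T) := by gcongr
    linarith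
  have b3 : m * x * Real.sqrt (k' * T * A) ≤ J * (m * x * Real.sqrt (k * T * A')) := by
    have h1 : Real.sqrt (k' * T * A) ≤ Real.sqrt (J ^ 2 * (k * T * A')) := by
      refine Real.sqrt_le_sqrt ?_
      calc k' * T * A ≤ (J * k) * T * (J * A') := by gcongr
        _ = _ := by ring
    have h2 : Real.sqrt (J ^ 2 * (k * T * A')) = J * Real.sqrt (k * T * A') := by
      rw [Real.sqrt_mul (by positivity), Real.sqrt_sq (by positivity)]
    rw [h2] at h1
    calc m * x * Real.sqrt (k' * T * A) ≤ m * x * (J * Real.sqrt (k * T * A')) := by gcongr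
      _ = _ := by ring
  have hfin : J * (Real.sqrt (m * k * x) * (Real.sqrt (m * k * x) + Real.sqrt (m * k * T) +
        Real.sqrt (m * x * T * A'))) = J * (Real.sqrt (m * k * x) * Real.sqrt (m * k * x)) +
        J * (Real.sqrt (m * k * x) * Real.sqrt (m * k * T)) +
        J * (Real.sqrt (m * k * x) * Real.sqrt (m * x * T * A')) := by ring
  rw [hfin, e1, e2, e3]
  linarith

lemma forms {T k k' J : ℝ} (hT : 1 ≤ T) (hk : 1 ≤ k) (hJ : 1 ≤ J) (hkk : k' ≤ J * k) :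
    Real.sqrt T + k' / Real.sqrt T ≤ J * (Real.sqrt T + k / Real.sqrt T) ∧
    Real.sqrt k' * T ^ (1 / 6 : ℝ) + k' * T ^ (-(1 / 6) : ℝ) ≤
      J * (Real.sqrt k * T ^ (1 / 6 : ℝ) + k * T ^ (-(1 / 6) : ℝ)) := by
  have hT0 : 0 < T := by linarith
  have hs : 0 < Real.sqrt T := Real.sqrt_pos.2 hT0
  constructor
  · have h1 : k' / Real.sqrt T ≤ J * k / Real.sqrt T := by gcongr
    have h2 : 1 * Real.sqrt T ≤ J * Real.sqrt T := by gcongr
    rw [mul_add, ← mul_div_assoc]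
    linarith
  · have h1 : Real.sqrt k' ≤ J * Real.sqrt k := by
      calc Real.sqrt k' ≤ Real.sqrt (J ^ 2 * k) := by
            refine Real.sqrt_le_sqrt (hkk.trans ?_)
            have : J * 1 ≤ J * J := by gcongr
            nlinarith
        _ = _ := by rw [Real.sqrt_mul (by positivity), Real.sqrt_sq (by positivity)]
    calc Real.sqrt k' * T ^ (1 / 6 : ℝ) + k' * T ^ (-(1 / 6) : ℝ) ≤
        (J * Real.sqrt k) * T ^ (1 / 6 : ℝ) + (J * k) * T ^ (-(1 / 6) : ℝ) := by gcongr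
      _ = _ := by ring

lemma weights {m k x T e C : ℝ} (hm : 1 ≤ m) (hk : 1 ≤ k) (hx : 1 ≤ x) (he : 0 < e)
    (hmk : m * k ≤ T) : (C * m ^ (e - 1 / 2)) * (C * k ^ (e - 1 / 2)) * x ^ (-(1 / 2) : ℝ) *
      Real.sqrt (m * k * x) ≤ C ^ 2 * T ^ e := by
  have hm0 : 0 < m := by linarith
  have hk0 : 0 < k := by linarith
  have hx0 : 0 < x := by linarith
  have s1 : Real.sqrt (m * k * x) = m ^ (1 / 2 : ℝ) * k ^ (1 / 2 : ℝ) * x ^ (1 / 2 : ℝ) := by
    rw [Real.sqrt_eq_rpow, Real.mul_rpow (by positivity) hx0.le, Real.mul_rpow hm0.le hk0.le]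
  have s2 : m ^ (e - 1 / 2) * m ^ (1 / 2 : ℝ) = m ^ e := by
    rw [← Real.rpow_add hm0]; congr 1; ring
  have s3 : k ^ (e - 1 / 2) * k ^ (1 / 2 : ℝ) = k ^ e := by
    rw [← Real.rpow_add hk0]; congr 1; ring
  have s4 : x ^ (-(1 / 2) : ℝ) * x ^ (1 / 2 : ℝ) = 1 := by
    rw [← Real.rpow_add hx0]; norm_num
  calc (C * m ^ (e - 1 / 2)) * (C * k ^ (e - 1 / 2)) * x ^ (-(1 / 2) : ℝ) *
      Real.sqrt (m * k * x) = C ^ 2 * ((m ^ (e - 1 / 2) * m ^ (1 / 2 : ℝ)) *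
        (k ^ (e - 1 / 2) * k ^ (1 / 2 : ℝ)) * (x ^ (-(1 / 2) : ℝ) * x ^ (1 / 2 : ℝ))) := by
        rw [s1]; ring
    _ = C ^ 2 * (m * k) ^ e := by
        rw [s2, s3, s4, Real.mul_rpow hm0.le hk0.le]; ring
    _ ≤ C ^ 2 * T ^ e := by
        gcongr

/-- the final estimate -/
lemma final {T e η c₀ Cx P Q q A S AT0 M3 : ℝ} (hT1 : 1 ≤ T) (hepos : 0 < e) (he1 : e ≤ η / 32)
    (he2 : e ≤ c₀) (hη0 : η ≤ 4 * c₀) (hc : 16 * c₀ ≤ 1 / 3) (hCx : 0 < Cx) (hQ0 : 0 ≤ Q)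
    (hQ : Q = Cx + q * P) (hTQ : 4 * Q ≤ T ^ e) (E1 : A ≤ T ^ (3 / 4 : ℝ)) (hA : 0 ≤ A)
    (hM3 : A ≤ M3) (hM3b : M3 ≤ T ^ (3 / 4 : ℝ) + T ^ (1 - η / 8) + 2 * T ^ (1 - 6 * c₀))
    (hS : S ≤ q * (P * T ^ e * M3)) (hAT : AT0 ≤ Cx * (1 / 2) * A + S) : AT0 ≤ T ^ (1 - e) := by
  have hT0 : 0 < T := by linarith
  have hTe : 1 ≤ T ^ e := Real.one_le_rpow hT1 hepos.le
  have hpow : ∀ a : ℝ, e + a ≤ 1 - 2 * e → T ^ e * T ^ a ≤ T ^ (1 - 2 * e) := by
    intro a ha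
    rw [← Real.rpow_add hT0]
    exact Real.rpow_le_rpow_of_exponent_le hT1 ha
  have g1 := hpow (3 / 4) (by linarith)
  have g2 := hpow (1 - η / 8) (by linarith)
  have g3 := hpow (1 - 6 * c₀) (by linarith)
  have hTS : T ^ e * M3 ≤ 4 * T ^ (1 - 2 * e) := by
    have := mul_le_mul_of_nonneg_left hM3b (by positivity : 0 ≤ T ^ e)
    linarith
  have hsq : A ≤ T ^ e * M3 := by
    have h8 : 0 ≤ M3 := hA.trans hM3
    nlinarith
  have h10 : Cx * (1 / 2) * A ≤ Cx * (T ^ e * M3) := by nlinarith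
  have htri : AT0 ≤ Q * (T ^ e * M3) := by
    have hfin : Cx * (T ^ e * M3) + q * (P * T ^ e * M3) = Q * (T ^ e * M3) := by
      rw [hQ]; ring
    linarith
  refine htri.trans ?_
  have h12 : T ^ (1 - e) = T ^ e * T ^ (1 - 2 * e) := by
    rw [← Real.rpow_add hT0]; congr 1; ring
  rw [h12]
  have h14 : 0 ≤ T ^ (1 - 2 * e) := by positivity
  calc Q * (T ^ e * M3) ≤ Q * (4 * T ^ (1 - 2 * e)) := by gcongr
    _ = (4 * Q) * T ^ (1 - 2 * e) := by ring
    _ ≤ T ^ e * T ^ (1 - 2 * e) := by gcongr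

theorem bil (h1 : T_PX) (h2 : T_XPR) (h3 : T_BLK) : T_BIL := by
  classical
  intro ι _ f Y d t₀ r hY hd1 hd2 hr hcl
  obtain ⟨κ, B, η', C, hκ, hmain⟩ := hY.main
  obtain ⟨c₀, hc₀⟩ : ∃ c₀ : ℝ, 16 * c₀ = 4 / 3 - d := ⟨(4 / 3 - d) / 16, by ring⟩
  have hc₀pos : 0 < c₀ := by linarith
  refine ⟨4 * c₀, by positivity, fun η hη hη0 => ?_⟩
  set e : ℝ := min (η / 32) c₀ with he
  have hepos : 0 < e := lt_min (by positivity) hc₀pos
  have he1 : e ≤ η / 32 := min_le_left _ _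
  have he2 : e ≤ c₀ := min_le_right _ _
  obtain ⟨Cp, hCp, hP⟩ := two_forms h1 f r e hcl hepos
  obtain ⟨Cx, Tx, hCx, hXP⟩ := h2 ι f Y d B η' t₀ C κ hY.diff hmain
  obtain ⟨Cb, Tb, hCb, hB⟩ := h3 d B η' r hd1 (by linarith) hr
  set q : ℕ := Fintype.card ι + 1 with hq
  set J : ℝ := 2 ^ q with hJ
  have hJ1 : 1 ≤ J := one_le_pow₀ (by norm_num)
  set Q : ℝ := Cx + q * (Cp ^ 2 * (Cb * J * J)) with hQ
  have hQ0 : 0 ≤ Q := by positivity
  obtain ⟨T₁, hT₁⟩ := eventually_atTop.1 ((tendsto_rpow_atTop hepos).eventually_ge_atTop (4 * Q))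
  refine ⟨e, max (max Tx Tb) (max T₁ 1), hepos, fun T hT j hj X ρ y hXT hρ hy => ?_⟩
  have hTx : Tx ≤ T := ((le_max_left _ _).trans (le_max_left _ _)).trans hT
  have hTb : Tb ≤ T := ((le_max_right _ _).trans (le_max_left _ _)).trans hT
  have hTT : T₁ ≤ T := ((le_max_left _ _).trans (le_max_right _ _)).trans hT
  have hT1 : 1 ≤ T := ((le_max_right _ _).trans (le_max_right _ _)).trans hT
  have hT0 : 0 < T := by linarith
  rcases Nat.eq_zero_or_pos X with rfl | hXpos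
  · have : AT f Y j 0 ρ (5 * T / 4) (T / 2) y = 0 := by
      unfold AT TP
      simp
    rw [this, norm_zero]
    positivity
  obtain ⟨c, c', hc, hc', hPj⟩ := hP j
  have hmains := mains_log f r (1 - η / 4) T hcl j hj
  have hSZ := SZ_split (fun l => (f l).r = r) j
  have hM1 := SZ_pos (fun l : {l // (f l).r = r} => j l)
  have hK1 := SZ_pos (fun l : {l // ¬ (f l).r = r} => j l)
  generalize SZ (fun l : {l // (f l).r = r} => j l) = M at hc hPj hmains hSZ hM1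
  generalize SZ (fun l : {l // ¬ (f l).r = r} => j l) = K at hc' hPj hmains hSZ hK1
  have hm1 : (1 : ℝ) ≤ M := by exact_mod_cast hM1
  have hk1 : (1 : ℝ) ≤ K := by exact_mod_cast hK1
  have hx1 : (1 : ℝ) ≤ X := by exact_mod_cast hXpos
  have hlogX : Real.log X ≤ (d - 1 + η) * Real.log T := by
    rw [← Real.log_rpow hT0]
    exact Real.log_le_log (by linarith) hXT
  obtain ⟨E1, E2, E3, E4⟩ := exponents hT1 hm1 hk1 hx1 hr hη hη0 hc₀ hd1 hmains hlogX
  -- the choice of `A`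
  obtain ⟨A', hA'0, hA'T, hA'⟩ : ∃ A' : ℝ, 0 ≤ A' ∧ M * X * T * A' ≤ 2 * T ^ (2 - 12 * c₀) ∧
      ∀ k' : ℕ, (k' : ℝ) ≤ J * K → ∃ A : ℝ, 0 ≤ A ∧ A ≤ J * A' ∧
        (A = Real.sqrt T + k' / Real.sqrt T ∨
          A = Real.sqrt k' * T ^ (1 / 6 : ℝ) + k' * T ^ (-(1 / 6) : ℝ)) := by
    rcases E4 with E4 | E4
    · refine ⟨_, by positivity, E4, fun k' hk' => ⟨_, by positivity, ?_, Or.inl rfl⟩⟩
      exact (forms hT1 hk1 hJ1 hk').1
    · refine ⟨_, by positivity, E4, fun k' hk' => ⟨_, by positivity, ?_, Or.inr rfl⟩⟩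
      exact (forms hT1 hk1 hJ1 hk').2
  -- one dyadic range
  set S3 : ℝ := Real.sqrt (M * K * X) + Real.sqrt (M * K * T) + Real.sqrt (M * X * T * A') with hS3
  set F : ℕ → ℕ → ℕ → ℂ := fun n m p => c n * c' m * (ρ p * en p (-y)) *
    IO d B η' (5 * T / 4) (T / 2) y (r * Real.log n + Real.log m + Real.log p) with hF
  have hpiece : ∀ k' : ℕ, 1 ≤ k' → (k' : ℝ) ≤ J * K →
      ‖∑ n ∈ Finset.Ico M (2 ^ q * M), ∑ m ∈ Finset.Ico k' (2 * k'),
        ∑ p ∈ Finset.Ico X (2 * X), F n m p‖ ≤ Cp ^ 2 * (Cb * J * J) * T ^ e * S3 := by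
    intro k' hk'1 hk'
    obtain ⟨A, hA0, hAA, hAf⟩ := hA' k' hk'
    have ha : 0 < Cp * (M : ℝ) ^ (e - 1 / 2) := by positivity
    have hb : 0 < Cp * (K : ℝ) ^ (e - 1 / 2) := by positivity
    have hg : 0 < (X : ℝ) ^ (-(1 / 2) : ℝ) := by positivity
    rw [scale _ _ _ c c' (fun p => ρ p * en p (-y))
      (fun n m p => IO d B η' (5 * T / 4) (T / 2) y (r * Real.log n + Real.log m + Real.log p))
      _ _ _ ha hb hg, norm_mul, Complex.norm_real, Real.norm_of_nonneg (by positivity)]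
    have hBk := hB T hTb (5 * T / 4) (T / 2) y (by linarith) (by linarith) (by linarith) hy M
      (2 ^ q) k' X (fun n => c n / ((Cp * (M : ℝ) ^ (e - 1 / 2) : ℝ) : ℂ))
      (fun n => c' n / ((Cp * (K : ℝ) ^ (e - 1 / 2) : ℝ) : ℂ))
      (fun p => ρ p * en p (-y) / (((X : ℝ) ^ (-(1 / 2) : ℝ) : ℝ) : ℂ)) A hM1 hk'1 hXpos
      (fun n => by
        rw [norm_div, Complex.norm_real, Real.norm_of_nonneg ha.le, div_le_one ha]
        exact hc n)
      (fun n => by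
        rw [norm_div, Complex.norm_real, Real.norm_of_nonneg hb.le, div_le_one hb]
        exact hc' n)
      (fun p => by
        rw [norm_div, norm_mul, norm_en, mul_one, Complex.norm_real, Real.norm_of_nonneg hg.le,
          div_le_one hg]
        exact hρ p) hA0 hAf
    have hJc : ((2 ^ q : ℕ) : ℝ) = J := by push_cast; rfl
    rw [hJc] at hBk
    have hsz := sizes hT1 hm1 hk1 hx1 hJ1 (Nat.cast_nonneg k') hk' hA0 hA'0 hAA
    have hw := weights (C := Cp) hm1 hk1 hx1 hepos E3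
    have hS30 : 0 ≤ S3 := by positivity
    calc (Cp * (M : ℝ) ^ (e - 1 / 2)) * (Cp * (K : ℝ) ^ (e - 1 / 2)) * (X : ℝ) ^ (-(1 / 2) : ℝ) * _
        ≤ (Cp * (M : ℝ) ^ (e - 1 / 2)) * (Cp * (K : ℝ) ^ (e - 1 / 2)) * (X : ℝ) ^ (-(1 / 2) : ℝ) *
          (Cb * J * (J * (Real.sqrt (M * K * X) * S3))) := by
          refine mul_le_mul_of_nonneg_left (hBk.trans ?_) (by positivity)
          exact mul_le_mul_of_nonneg_left hsz (by positivity)
      _ = ((Cp * (M : ℝ) ^ (e - 1 / 2)) * (Cp * (K : ℝ) ^ (e - 1 / 2)) *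
          (X : ℝ) ^ (-(1 / 2) : ℝ) * Real.sqrt (M * K * X)) * (Cb * J * J * S3) := by ring
      _ ≤ (Cp ^ 2 * T ^ e) * (Cb * J * J * S3) := by gcongr
      _ = _ := by ring
  -- the whole main term
  obtain ⟨S, hS⟩ : ∃ S : ℂ, S = ∑ n ∈ Finset.Ico M (2 ^ q * M), ∑ m ∈ Finset.Ico K (2 ^ q * K),
    ∑ p ∈ Finset.Ico X (2 * X), F n m p := ⟨_, rfl⟩
  have hSb : ‖S‖ ≤ q * (Cp ^ 2 * (Cb * J * J) * T ^ e * S3) := by
    have hS' : S = ∑ i ∈ Finset.range q, ∑ n ∈ Finset.Ico M (2 ^ q * M),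
        ∑ m ∈ Finset.Ico (2 ^ i * K) (2 * (2 ^ i * K)), ∑ p ∈ Finset.Ico X (2 * X), F n m p := by
      rw [hS, Finset.sum_comm (s := Finset.range q)]
      exact Finset.sum_congr rfl fun n _ =>
        dyadic (fun m => ∑ p ∈ Finset.Ico X (2 * X), F n m p) K q
    rw [hS']
    have hi : ∀ i ∈ Finset.range q, ‖∑ n ∈ Finset.Ico M (2 ^ q * M),
        ∑ m ∈ Finset.Ico (2 ^ i * K) (2 * (2 ^ i * K)), ∑ p ∈ Finset.Ico X (2 * X), F n m p‖ ≤
        Cp ^ 2 * (Cb * J * J) * T ^ e * S3 := by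
      intro i hi
      refine hpiece (2 ^ i * K) (Nat.one_le_iff_ne_zero.2 (by positivity)) ?_
      push_cast
      have : (2 : ℝ) ^ i ≤ J := pow_le_pow_right₀ (by norm_num) (Finset.mem_range.1 hi).le
      gcongr
    refine (norm_sum_le _ _).trans ((Finset.sum_le_card_nsmul _ _ _ hi).trans ?_)
    rw [Finset.card_range, nsmul_eq_mul]
  have hX' := hXP T hTx j M K (2 ^ q) r 1 c c' X ρ hM1 hK1 hρ hPj (5 * T / 4) (T / 2) y
    (by linarith) (by linarith) (by linarith) hy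
  have hSeq : (∑ n ∈ Finset.Ico M (2 ^ q * M), ∑ m ∈ Finset.Ico K (2 ^ q * K),
      ∑ p ∈ Finset.Ico X (2 * X), c n * c' m * (ρ p * en p (-y)) *
        IO d B η' (5 * T / 4) (T / 2) y (r * Real.log n + 1 * Real.log m + Real.log p)) = S := by
    simp only [hS, hF, one_mul]
  rw [hSeq] at hX'
  have hSX : Real.sqrt (SZ j) * Real.sqrt X = Real.sqrt (M * K * X) := by
    rw [hSZ, ← Real.sqrt_mul (by positivity)]
    push_cast
    rfl
  have hhalf : T / 2 / T = 1 / 2 := by field_simp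
  rw [hhalf, mul_assoc (Cx * (1 / 2)), hSX] at hX'
  have hκS : ‖κ * S‖ = ‖S‖ := by rw [norm_mul, hκ, one_mul]
  have h9 : ‖AT f Y j X ρ (5 * T / 4) (T / 2) y‖ ≤ Cx * (1 / 2) * Real.sqrt (M * K * X) + ‖S‖ := by
    have := norm_add_le (AT f Y j X ρ (5 * T / 4) (T / 2) y - κ * S) (κ * S)
    rw [sub_add_cancel, hκS] at this
    exact this.trans (add_le_add hX' le_rfl)
  have h6 : Real.sqrt (M * X * T * A') ≤ 2 * T ^ (1 - 6 * c₀) := by
    refine (Real.sqrt_le_sqrt hA'T).trans ?_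
    rw [Real.sqrt_le_left (by positivity), mul_pow, ← Real.rpow_natCast (T ^ (1 - 6 * c₀)) 2,
      ← Real.rpow_mul hT0.le]
    have : (1 - 6 * c₀) * ((2 : ℕ) : ℝ) = 2 - 12 * c₀ := by push_cast; ring
    rw [this]
    have := Real.rpow_nonneg hT0.le (2 - 12 * c₀)
    nlinarith
  have h7 : Real.sqrt (M * K * X) ≤ S3 := by
    rw [hS3]
    have := Real.sqrt_nonneg (M * K * T : ℝ)
    have := Real.sqrt_nonneg (M * X * T * A' : ℝ)
    linarith
  refine final (P := Cp ^ 2 * (Cb * J * J)) hT1 hepos he1 he2 hη0 (by linarith) hCx hQ0 hQ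
    (hT₁ T hTT) E1 (Real.sqrt_nonneg _) h7 ?_ hSb h9
  rw [hS3]
  linarith

end Pool.Agent.H19.DP.BIL
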