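import Pool.Agent.H19.DP.PW

/-!
Module F3 of the project DP: pairs at polynomial distances.
-/

set_option autoImplicit false

open Finset Filter Topology

namespace Pool.Agent.H19.DP.F3

open Pool.Agent.H31.DP
open Pool.Agent.H19.DP.PW (eval_le norm_ee)

theorem fz_abs {r : ℕ} (β : Fin r → ℤ) (δ : Fin r → ℕ) (m : ℤ) : |fz β δ m| ≤ 1 := by
  unfold fz
  rw [Finset.abs_prod]
  refine Finset.prod_le_one (fun i _ => abs_nonneg _) fun i _ => ?_
  rw [abs_pow]
  refine pow_le_one₀ (abs_nonneg _) ?_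
  rw [← Int.cast_abs]
  exact_mod_cast ArithmeticFunction.abs_moebius_le_one

theorem fz_zero {r : ℕ} (β : Fin r → ℤ) (δ : Fin r → ℕ) (i₀ : Fin r) (hδ : 1 ≤ δ i₀) (m : ℤ)
    (hm : m + β i₀ ≤ 0) : fz β δ m = 0 := by
  unfold fz
  refine Finset.prod_eq_zero (Finset.mem_univ i₀) ?_
  rw [Int.toNat_of_nonpos hm, ArithmeticFunction.map_zero, Int.cast_zero, zero_pow (by omega)]

/-- The twisted sum over `[-H, H]`. -/
theorem sum_fz {r : ℕ} (β : Fin r → ℤ) (δ : Fin r → ℕ) (hP : Pair β δ) :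
    ∃ b : ℕ, ∀ (H : ℕ) (θ : ℝ) (u : ℤ → ℂ),
      (∀ m : ℤ, |m| ≤ (H : ℤ) → u m = ((fz β δ m : ℝ) : ℂ)) →
      ‖∑ m ∈ Icc (-(H : ℤ)) (H : ℤ), u m * ee (m * θ)‖ ≤ ‖Sm β δ H θ‖ + b := by
  classical
  have hne : ∃ i₀ : Fin r, Odd (δ i₀) := by
    rcases hP.2.2 with h | h
    · obtain ⟨i, hi⟩ := Finset.card_pos.1 (by rw [h]; norm_num :
        0 < (Finset.univ.filter (fun i => Odd (δ i))).card)
      exact ⟨i, (Finset.mem_filter.1 hi).2⟩
    · obtain ⟨i, hi⟩ := Finset.card_pos.1 (by rw [h]; norm_num :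
        0 < (Finset.univ.filter (fun i => Odd (δ i))).card)
      exact ⟨i, (Finset.mem_filter.1 hi).2⟩
  obtain ⟨i₀, -⟩ := hne
  refine ⟨(β i₀).natAbs + 1, ?_⟩
  intro H θ u hu
  rw [← Finset.sum_filter_add_sum_filter_not (Icc (-(H : ℤ)) (H : ℤ)) (fun m => 1 ≤ m)]
  refine (norm_add_le _ _).trans (add_le_add (le_of_eq ?_) ?_)
  · congr 1
    unfold Sm
    symm
    refine Finset.sum_bij (fun n _ => (n : ℤ)) ?_ ?_ ?_ ?_
    · intro n hn
      rw [Finset.mem_Icc] at hn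
      rw [Finset.mem_filter, Finset.mem_Icc]
      omega
    · intro n _ n' _ h
      simpa using h
    · intro m hm
      rw [Finset.mem_filter, Finset.mem_Icc] at hm
      refine ⟨m.toNat, ?_, ?_⟩
      · rw [Finset.mem_Icc]
        omega
      · exact Int.toNat_of_nonneg (by omega)
    · intro n hn
      rw [Finset.mem_Icc] at hn
      rw [hu (n : ℤ) (by rw [Nat.abs_cast]; exact_mod_cast hn.2)]
      push_cast
      rfl
  · have h1 : ∀ m ∈ (Icc (-(H : ℤ)) (H : ℤ)).filter (fun m => ¬ 1 ≤ m),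
        ‖u m * ee (m * θ)‖ ≤ if m ∈ Icc (-((β i₀).natAbs : ℤ)) 0 then (1 : ℝ) else 0 := by
      intro m hm
      rw [Finset.mem_filter, Finset.mem_Icc] at hm
      have h2 : |m| ≤ (H : ℤ) := abs_le.2 hm.1
      rw [norm_mul, norm_ee, mul_one, hu m h2, Complex.norm_real, Real.norm_eq_abs]
      split_ifs with h3
      · exact fz_abs β δ m
      · rw [fz_zero β δ i₀ (hP.1 i₀) m, abs_zero]
        rw [Finset.mem_Icc] at h3
        omega
    refine (norm_sum_le _ _).trans ((Finset.sum_le_sum h1).trans ?_)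
    rw [← Finset.sum_filter, Finset.sum_const, nsmul_eq_mul, mul_one]
    have h4 : (((Icc (-(H : ℤ)) (H : ℤ)).filter (fun m => ¬ 1 ≤ m)).filter
        (fun m => m ∈ Icc (-((β i₀).natAbs : ℤ)) 0)).card ≤ (β i₀).natAbs + 1 := by
      refine (Finset.card_le_card (t := Icc (-((β i₀).natAbs : ℤ)) 0) ?_).trans (le_of_eq ?_)
      · intro m hm
        exact (Finset.mem_filter.1 hm).2
      · rw [Int.card_Icc]
        omega
    exact_mod_cast h4

theorem pf_F3 (hPW : StatementPW) (hS2 : StatementS2) : StatementF3 := by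
  classical
  intro r β δ P η ρ hPair hP hη hρ
  obtain ⟨cP, hcP⟩ := eval_le P
  obtain ⟨b, hb⟩ := sum_fz β δ hPair
  set C : ℕ := cP + 1 with hC
  have hC0 : (0 : ℝ) < C := by
    rw [hC]
    push_cast
    positivity
  obtain ⟨ε, hε, N₀, hN₀⟩ := hPW P C (η ^ 3) hP (by positivity)
  obtain ⟨K₁, hK₁⟩ := hS2 r β δ (ε / (2 * C)) (ρ / (2 * C)) hPair (by positivity) (by positivity)
  set N₁ : ℕ := max N₀ (⌈2 * b / ε⌉₊ + 1) with hN₁
  set K₂ : ℕ := ⌈Real.exp (2 * N₁ / ρ)⌉₊ with hK₂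
  refine ⟨max K₁ K₂, ?_⟩
  intro x y hx hxy
  have hx0 : (0 : ℝ) < x := by exact_mod_cast hx
  have hxy1 : K₁ * x ≤ y := (Nat.mul_le_mul_right x (le_max_left _ _)).trans hxy
  have hxy2 : K₂ * x ≤ y := (Nat.mul_le_mul_right x (le_max_right _ _)).trans hxy
  -- large scales
  have hlarge : ∀ N : ℕ, N₁ ≤ N → (∃ F : ℕ → ℂ, (∀ n, ‖F n‖ ≤ 1) ∧
        η * (N : ℝ) ^ ((1 : ℝ) / P.natDegree) <
          (((Finset.Icc 1 N).filter (fun t : ℕ => t ^ P.natDegree ≤ N ∧ η * N <
          ‖∑ n ∈ Finset.Icc 1 N, F n * ((fz β δ (n + P.eval (t : ℤ)) : ℝ) : ℂ)‖)).card : ℝ)) →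
      ∃ θ : ℝ, ε / (2 * C) * ((C * N : ℕ) : ℝ) < ‖Sm β δ (C * N) θ‖ := by
    intro N hN hbad
    obtain ⟨F, hF, hcard⟩ := hbad
    by_contra hcon
    push Not at hcon
    have hN0 : N₀ ≤ N := (le_max_left _ _).trans hN
    have hN2 : ⌈2 * b / ε⌉₊ + 1 ≤ N := (le_max_right _ _).trans hN
    have hNpos : 0 < N := by omega
    have hNr : (0 : ℝ) < N := by exact_mod_cast hNpos
    have hbN : (b : ℝ) ≤ ε / 2 * N := by
      have h1 : 2 * b / ε ≤ ⌈2 * b / ε⌉₊ := Nat.le_ceil _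
      have h2 : ((⌈2 * b / ε⌉₊ : ℕ) : ℝ) ≤ N := by
        exact_mod_cast (Nat.le_succ _).trans hN2
      have h3 := h1.trans h2
      rw [div_le_iff₀ hε] at h3
      linarith
    set u : ℤ → ℂ := fun m => if |m| ≤ ((C * N : ℕ) : ℤ) then ((fz β δ m : ℝ) : ℂ) else 0
      with hu
    have hu1 : ∀ m, ‖u m‖ ≤ 1 := by
      intro m
      simp only [hu]
      split_ifs
      · rw [Complex.norm_real, Real.norm_eq_abs]
        exact fz_abs β δ m
      · simp
    have hu2 : ∀ m, u m ≠ 0 → |m| ≤ ((C * N : ℕ) : ℤ) := by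
      intro m hm
      by_contra h
      exact hm (if_neg h)
    have hu3 : ∀ m : ℤ, |m| ≤ ((C * N : ℕ) : ℤ) → u m = ((fz β δ m : ℝ) : ℂ) :=
      fun m hm => if_pos hm
    have key := hN₀ N hN0 F u hF hu1 hu2 (fun θ => by
      refine (hb (C * N) θ u hu3).trans ?_
      have h1 := hcon θ
      have h2 : ε / (2 * C) * ((C * N : ℕ) : ℝ) = ε / 2 * N := by
        push_cast
        field_simp
      rw [h2] at h1
      linarith)
    -- count
    set T := (Finset.Icc 1 N).filter (fun t : ℕ => t ^ P.natDegree ≤ N ∧ η * N <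
          ‖∑ n ∈ Finset.Icc 1 N, F n * ((fz β δ (n + P.eval (t : ℤ)) : ℝ) : ℂ)‖) with hT
    have hle : (T.card : ℝ) * (η * N) ^ 2 ≤
        ∑ t ∈ (Finset.Icc 1 N).filter (fun t : ℕ => t ^ P.natDegree ≤ N),
          ‖∑ n ∈ Finset.Icc 1 N, F n * u (n + P.eval (t : ℤ))‖ ^ 2 := by
      have hsub : T ⊆ (Finset.Icc 1 N).filter (fun t : ℕ => t ^ P.natDegree ≤ N) := by
        intro t ht
        rw [hT, Finset.mem_filter] at ht
        exact Finset.mem_filter.2 ⟨ht.1, ht.2.1⟩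
      refine le_trans ?_ (Finset.sum_le_sum_of_subset_of_nonneg hsub
        (fun t _ _ => by positivity))
      rw [← nsmul_eq_mul, ← Finset.sum_const]
      refine Finset.sum_le_sum fun t ht => ?_
      rw [hT, Finset.mem_filter, Finset.mem_Icc] at ht
      have h1 : ∀ n ∈ Finset.Icc 1 N, F n * u (n + P.eval (t : ℤ)) =
          F n * ((fz β δ (n + P.eval (t : ℤ)) : ℝ) : ℂ) := by
        intro n hn
        rw [Finset.mem_Icc] at hn
        rw [hu3]
        have h2 : |P.eval (t : ℤ)| ≤ cP * N := by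
          refine (hcP t ht.1.1).trans ?_
          have h3 : ((t : ℤ)) ^ P.natDegree ≤ N := by exact_mod_cast ht.2.1
          exact mul_le_mul_of_nonneg_left h3 (Nat.cast_nonneg _)
        have h4 : |(n : ℤ)| ≤ N := by
          rw [Nat.abs_cast]
          exact_mod_cast hn.2
        refine (abs_add_le _ _).trans ?_
        rw [hC]
        push_cast
        linarith
      rw [Finset.sum_congr rfl h1]
      exact pow_le_pow_left₀ (by positivity) ht.2.2.le 2
    have h5 : (T.card : ℝ) * (η * N) ^ 2 ≤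
        η * (N : ℝ) ^ ((1 : ℝ) / P.natDegree) * (η * N) ^ 2 := by
      refine (hle.trans key).trans (le_of_eq ?_)
      ring
    have h6 : (T.card : ℝ) ≤ η * (N : ℝ) ^ ((1 : ℝ) / P.natDegree) :=
      le_of_mul_le_mul_right h5 (by positivity)
    exact absurd hcard (not_lt.2 h6)
  -- the sum
  have hlog : 0 ≤ Real.log ((y : ℝ) / x) ∧ (N₁ : ℝ) ≤ ρ / 2 * Real.log ((y : ℝ) / x) := by
    have h1 : Real.exp (2 * N₁ / ρ) ≤ (y : ℝ) / x := by
      rw [le_div_iff₀ hx0]
      have h2 : (K₂ : ℝ) * x ≤ y := by exact_mod_cast hxy2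
      exact (mul_le_mul_of_nonneg_right (Nat.le_ceil _) hx0.le).trans h2
    have h3 : 2 * N₁ / ρ ≤ Real.log ((y : ℝ) / x) := by
      rw [Real.le_log_iff_exp_le (lt_of_lt_of_le (Real.exp_pos _) h1)]
      exact h1
    refine ⟨le_trans (by positivity) h3, ?_⟩
    rw [div_le_iff₀ hρ] at h3
    linarith
  set bad : ℕ → Prop := fun N => ∃ F : ℕ → ℂ, (∀ n, ‖F n‖ ≤ 1) ∧
        η * (N : ℝ) ^ ((1 : ℝ) / P.natDegree) <
          (((Finset.Icc 1 N).filter (fun t : ℕ => t ^ P.natDegree ≤ N ∧ η * N <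
          ‖∑ n ∈ Finset.Icc 1 N, F n * ((fz β δ (n + P.eval (t : ℤ)) : ℝ) : ℂ)‖)).card : ℝ)
    with hbad
  set bad' : ℕ → Prop := fun N => ∃ θ : ℝ, ε / (2 * C) * (N : ℝ) < ‖Sm β δ N θ‖ with hbad'
  have hsplit : ∑ N ∈ (Finset.Icc x y).filter bad, (1 / (N : ℝ)) ≤
      ∑ N ∈ (Finset.Icc x y).filter (fun N => N < N₁), (1 / (N : ℝ)) +
        ∑ N ∈ (Finset.Icc x y).filter (fun N => bad' (C * N)), (1 / (N : ℝ)) := by
    rw [Finset.sum_filter, Finset.sum_filter, Finset.sum_filter, ← Finset.sum_add_distrib]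
    refine Finset.sum_le_sum fun N _ => ?_
    have hpos : (0 : ℝ) ≤ 1 / (N : ℝ) := by positivity
    by_cases h1 : bad N
    · by_cases h2 : N < N₁
      · rw [if_pos h1, if_pos h2]
        split_ifs
        · linarith
        · linarith
      · have h3 : bad' (C * N) := hlarge N (not_lt.1 h2) h1
        rw [if_pos h1, if_neg h2, if_pos h3, zero_add]
    · rw [if_neg h1]
      split_ifs
      · linarith
      · linarith
      · linarith
      · linarith
  have hfirst : ∑ N ∈ (Finset.Icc x y).filter (fun N => N < N₁), (1 / (N : ℝ)) ≤ N₁ := by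
    calc ∑ N ∈ (Finset.Icc x y).filter (fun N => N < N₁), (1 / (N : ℝ)) ≤
          ∑ _N ∈ (Finset.Icc x y).filter (fun N => N < N₁), (1 : ℝ) := by
          refine Finset.sum_le_sum fun N hN => ?_
          rw [Finset.mem_filter, Finset.mem_Icc] at hN
          have h1 : (1 : ℝ) ≤ N := by exact_mod_cast (Nat.one_le_iff_ne_zero.2 (by omega))
          exact (div_le_one (by linarith)).2 h1
      _ = (((Finset.Icc x y).filter (fun N => N < N₁)).card : ℝ) := by simp
      _ ≤ N₁ := by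
        have h1 : ((Finset.Icc x y).filter (fun N => N < N₁)).card ≤ (range N₁).card :=
          Finset.card_le_card fun N hN => Finset.mem_range.2 (Finset.mem_filter.1 hN).2
        rw [Finset.card_range] at h1
        exact_mod_cast h1
  have hsecond : ∑ N ∈ (Finset.Icc x y).filter (fun N => bad' (C * N)), (1 / (N : ℝ)) ≤
      ρ / 2 * Real.log ((y : ℝ) / x) := by
    have hCpos : 0 < C := by omega
    have h1 := hK₁ (C * x) (C * y) (Nat.mul_pos hCpos hx) (by
      calc K₁ * (C * x) = C * (K₁ * x) := by ring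
        _ ≤ C * y := Nat.mul_le_mul_left _ hxy1)
    have h2 : ((C * y : ℕ) : ℝ) / ((C * x : ℕ) : ℝ) = (y : ℝ) / x := by
      push_cast
      field_simp
    rw [h2] at h1
    have h3 : ∑ N ∈ (Finset.Icc x y).filter (fun N => bad' (C * N)), (1 / (N : ℝ)) ≤
        C * ∑ M ∈ (Finset.Icc (C * x) (C * y)).filter bad', (1 / (M : ℝ)) := by
      have h4 : ∑ N ∈ (Finset.Icc x y).filter (fun N => bad' (C * N)), (1 / (N : ℝ)) =
          C * ∑ M ∈ ((Finset.Icc x y).filter (fun N => bad' (C * N))).image (fun N => C * N),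
            (1 / (M : ℝ)) := by
        rw [Finset.sum_image (fun N _ N' _ h => Nat.eq_of_mul_eq_mul_left hCpos h),
          Finset.mul_sum]
        refine Finset.sum_congr rfl fun N hN => ?_
        rw [Finset.mem_filter, Finset.mem_Icc] at hN
        have hN0 : (0 : ℝ) < N := by exact_mod_cast lt_of_lt_of_le hx hN.1.1
        push_cast
        field_simp
      rw [h4]
      refine mul_le_mul_of_nonneg_left ?_ hC0.le
      refine Finset.sum_le_sum_of_subset_of_nonneg ?_ (fun M _ _ => by positivity)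
      intro M hM
      obtain ⟨N, hN, rfl⟩ := Finset.mem_image.1 hM
      rw [Finset.mem_filter, Finset.mem_Icc] at hN
      rw [Finset.mem_filter, Finset.mem_Icc]
      exact ⟨⟨Nat.mul_le_mul_left _ hN.1.1, Nat.mul_le_mul_left _ hN.1.2⟩, hN.2⟩
    refine h3.trans ((mul_le_mul_of_nonneg_left h1 hC0.le).trans (le_of_eq ?_))
    field_simp
  calc ∑ N ∈ (Finset.Icc x y).filter bad, (1 / (N : ℝ)) ≤ N₁ +
        ρ / 2 * Real.log ((y : ℝ) / x) := hsplit.trans (add_le_add hfirst hsecond)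
    _ ≤ ρ * Real.log ((y : ℝ) / x) := by linarith [hlog.2]

end Pool.Agent.H19.DP.F3
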