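import Pool.Agent.H25.DP.Targets3

/-!
# Module GX: the Gaussian weight
-/

set_option autoImplicit false

open Complex MeasureTheory Set Pool.Agent.H25.DL Pool.Agent.H25.DP

namespace Pool.Agent.H19.DP.GX

lemma gs_eq (β y : ℝ) :
    gs β (y * I) = ((β * Real.sqrt Real.pi : ℝ) : ℂ)⁻¹ * cexp (-((1 / β ^ 2 : ℝ) : ℂ) * (y : ℂ) ^ 2) := by
  unfold gs
  rw [div_eq_inv_mul]
  congr 1
  · push_cast
    rfl
  · congr 1
    push_cast
    rw [div_pow, mul_pow, Complex.I_sq]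
    ring

lemma norm_gauss (b y : ℝ) : ‖cexp (-(b : ℂ) * (y : ℂ) ^ 2)‖ = Real.exp (-b * y ^ 2) := by
  rw [Complex.norm_exp]
  congr 1
  have : (-(b : ℂ) * (y : ℂ) ^ 2) = ((-b * y ^ 2 : ℝ) : ℂ) := by push_cast; ring
  rw [this, Complex.ofReal_re]

lemma norm_osc (Δ y : ℝ) : ‖cexp (I * (Δ : ℂ) * (y : ℂ))‖ = 1 := by
  have : (I * (Δ : ℂ) * (y : ℂ)) = ((Δ * y : ℝ) : ℂ) * I := by push_cast; ring
  rw [this, Complex.norm_exp_ofReal_mul_I]

/-- the full line -/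
lemma full (β Δ : ℝ) (hβ : 0 < β) :
    ∫ y : ℝ, ((β * Real.sqrt Real.pi : ℝ) : ℂ)⁻¹ *
      (cexp (I * (Δ : ℂ) * (y : ℂ)) * cexp (-((1 / β ^ 2 : ℝ) : ℂ) * (y : ℂ) ^ 2)) =
      (Real.exp (-(β ^ 2 * Δ ^ 2 / 4)) : ℂ) := by
  have hb : 0 < ((1 / β ^ 2 : ℝ) : ℂ).re := by
    rw [Complex.ofReal_re]; positivity
  rw [integral_const_mul, fourierIntegral_gaussian hb]
  have h1 : ((Real.pi : ℂ) / ((1 / β ^ 2 : ℝ) : ℂ)) ^ (1 / 2 : ℂ)
      = ((β * Real.sqrt Real.pi : ℝ) : ℂ) := by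
    have h2 : (Real.pi : ℂ) / ((1 / β ^ 2 : ℝ) : ℂ) = ((Real.pi * β ^ 2 : ℝ) : ℂ) := by
      push_cast
      rw [div_div_eq_mul_div, div_one]
    have h3 : (1 / 2 : ℂ) = ((1 / 2 : ℝ) : ℂ) := by push_cast; rfl
    rw [h2, h3, ← Complex.ofReal_cpow (by positivity), ← Real.sqrt_eq_rpow,
      Real.sqrt_mul Real.pi_pos.le, Real.sqrt_sq hβ.le, mul_comm]
  have h4 : ((β * Real.sqrt Real.pi : ℝ) : ℂ) ≠ 0 := by
    rw [Complex.ofReal_ne_zero]
    exact (mul_pos hβ (Real.sqrt_pos.2 Real.pi_pos)).ne'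
  rw [h1, ← mul_assoc, inv_mul_cancel₀ h4, one_mul, Complex.ofReal_exp]
  congr 1
  have hβ0 : (β : ℂ) ≠ 0 := by exact_mod_cast hβ.ne'
  push_cast
  field_simp

lemma integrable_full (β Δ : ℝ) (hβ : 0 < β) :
    Integrable fun y : ℝ => ((β * Real.sqrt Real.pi : ℝ) : ℂ)⁻¹ *
      (cexp (I * (Δ : ℂ) * (y : ℂ)) * cexp (-((1 / β ^ 2 : ℝ) : ℂ) * (y : ℂ) ^ 2)) := by
  have hb : 0 < ((1 / β ^ 2 : ℝ) : ℂ).re := by
    rw [Complex.ofReal_re]; positivity
  refine Integrable.const_mul ?_ _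
  refine (integrable_cexp_quadratic hb (I * Δ) 0).congr ?_
  refine Filter.Eventually.of_forall fun y => ?_
  simp only
  rw [← Complex.exp_add]
  congr 1
  ring

/-- the Gaussian integral outside `[-R, R]` -/
lemma tail (b R : ℝ) (hb : 0 < b) (hR : 0 ≤ R) :
    ∫ y in (Ioc (-R) R)ᶜ, Real.exp (-b * y ^ 2) ≤
      Real.exp (-(b * R ^ 2 / 2)) * Real.sqrt (Real.pi / (b / 2)) := by
  have hi := integrable_exp_neg_mul_sq hb
  have hi2 := integrable_exp_neg_mul_sq (half_pos hb)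
  rw [← integral_gaussian, ← integral_const_mul]
  calc ∫ y in (Ioc (-R) R)ᶜ, Real.exp (-b * y ^ 2)
      ≤ ∫ y in (Ioc (-R) R)ᶜ, Real.exp (-(b * R ^ 2 / 2)) * Real.exp (-(b / 2) * y ^ 2) := by
        refine setIntegral_mono_on hi.integrableOn (hi2.const_mul _).integrableOn
          measurableSet_Ioc.compl fun y hy => ?_
        rw [← Real.exp_add, Real.exp_le_exp]
        have h1 : R ^ 2 ≤ y ^ 2 := by
          rw [sq_le_sq, abs_of_nonneg hR]
          by_contra h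
          push Not at h
          rw [abs_lt] at h
          exact hy ⟨h.1, h.2.le⟩
        nlinarith
    _ ≤ ∫ y, Real.exp (-(b * R ^ 2 / 2)) * Real.exp (-(b / 2) * y ^ 2) := by
        apply setIntegral_le_integral (hi2.const_mul _)
        exact Filter.Eventually.of_forall fun y => by positivity

theorem gx : T_GX := by
  intro β hβ
  refine ⟨Real.exp (22 * β ^ 2 + 1), fun T hT Δ => ?_⟩
  have hT0 : 0 < T := lt_of_lt_of_le (Real.exp_pos _) hT
  have hL : 22 * β ^ 2 + 1 ≤ Real.log T := by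
    rw [Real.le_log_iff_exp_le hT0]; exact hT
  set R := Real.log T with hRdef
  have hR0 : 0 ≤ R := le_trans (by positivity) hL
  set g : ℝ → ℂ := fun y => ((β * Real.sqrt Real.pi : ℝ) : ℂ)⁻¹ *
      (cexp (I * (Δ : ℂ) * (y : ℂ)) * cexp (-((1 / β ^ 2 : ℝ) : ℂ) * (y : ℂ) ^ 2)) with hg
  have hgi : Integrable g := integrable_full β Δ hβ
  have h1 : (∫ y in (-R)..R, cexp ((Δ * y : ℝ) * I) * gs β (y * I)) = ∫ y in Ioc (-R) R, g y := by
    rw [intervalIntegral.integral_of_le (by linarith)]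
    refine setIntegral_congr_fun measurableSet_Ioc fun y _ => ?_
    simp only [hg, gs_eq]
    have : ((Δ * y : ℝ) : ℂ) * I = I * (Δ : ℂ) * (y : ℂ) := by push_cast; ring
    rw [this]
    ring
  have h2 : (Real.exp (-(β ^ 2 * Δ ^ 2 / 4)) : ℂ)
      = (∫ y in Ioc (-R) R, g y) + ∫ y in (Ioc (-R) R)ᶜ, g y := by
    rw [integral_add_compl measurableSet_Ioc hgi]
    exact (full β Δ hβ).symm
  rw [h1, h2]
  have h3 : (∫ y in Ioc (-R) R, g y) - ((∫ y in Ioc (-R) R, g y) + ∫ y in (Ioc (-R) R)ᶜ, g y)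
      = - ∫ y in (Ioc (-R) R)ᶜ, g y := by ring
  rw [h3, norm_neg]
  have hb : 0 < 1 / β ^ 2 := by positivity
  have hs : 0 < β * Real.sqrt Real.pi := mul_pos hβ (Real.sqrt_pos.2 Real.pi_pos)
  have hn : ∀ y, ‖g y‖ = (β * Real.sqrt Real.pi)⁻¹ * Real.exp (-(1 / β ^ 2) * y ^ 2) := by
    intro y
    simp only [hg]
    rw [norm_mul, norm_mul, norm_osc, norm_gauss, one_mul, norm_inv, Complex.norm_real,
      Real.norm_of_nonneg hs.le]
  calc ‖∫ y in (Ioc (-R) R)ᶜ, g y‖ ≤ ∫ y in (Ioc (-R) R)ᶜ, ‖g y‖ := norm_integral_le_integral_norm _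
    _ = (β * Real.sqrt Real.pi)⁻¹ * ∫ y in (Ioc (-R) R)ᶜ, Real.exp (-(1 / β ^ 2) * y ^ 2) := by
        simp_rw [hn]
        rw [integral_const_mul]
    _ ≤ (β * Real.sqrt Real.pi)⁻¹ * (Real.exp (-(1 / β ^ 2 * R ^ 2 / 2)) *
          Real.sqrt (Real.pi / (1 / β ^ 2 / 2))) :=
        mul_le_mul_of_nonneg_left (tail _ R hb hR0) (by positivity)
    _ = Real.sqrt 2 * Real.exp (-(1 / β ^ 2 * R ^ 2 / 2)) := by
        have h5 : Real.pi / (1 / β ^ 2 / 2) = 2 * (Real.pi * β ^ 2) := by field_simp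
        rw [h5, Real.sqrt_mul (by norm_num), Real.sqrt_mul Real.pi_pos.le, Real.sqrt_sq hβ.le]
        field_simp
    _ ≤ T ^ (-10 : ℝ) := by
        rw [Real.rpow_def_of_pos hT0]
        have h6 : Real.sqrt 2 ≤ Real.exp 1 := by
          have := Real.add_one_le_exp (1 : ℝ)
          have h7 : Real.sqrt 2 ≤ 2 := by
            rw [Real.sqrt_le_left (by norm_num)]; norm_num
          linarith
        calc Real.sqrt 2 * Real.exp (-(1 / β ^ 2 * R ^ 2 / 2))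
            ≤ Real.exp 1 * Real.exp (-(1 / β ^ 2 * R ^ 2 / 2)) :=
              mul_le_mul_of_nonneg_right h6 (Real.exp_pos _).le
          _ = Real.exp (1 + -(1 / β ^ 2 * R ^ 2 / 2)) := (Real.exp_add _ _).symm
          _ ≤ Real.exp (Real.log T * -10) := by
              rw [Real.exp_le_exp, ← hRdef]
              have h8 : 11 * R ≤ 1 / β ^ 2 * R ^ 2 / 2 := by
                have h9 : 1 / β ^ 2 * R ^ 2 / 2 = (R / (2 * β ^ 2)) * R := by field_simp
                rw [h9]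
                apply mul_le_mul_of_nonneg_right _ hR0
                rw [le_div_iff₀ (by positivity)]
                nlinarith
              nlinarith [sq_nonneg β]

end Pool.Agent.H19.DP.GX
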