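import Pool.Agent.H65.DP.EXX

/-!
# Two dilations: module LLX, the left side as a sum over short blocks
-/

set_option autoImplicit false

open Complex MeasureTheory Set Filter Topology

namespace Pool.Agent.H19.DP.LLX

open Pool.Agent.H25.DL Pool.Agent.H25.DP Pool.Agent.H11.DL Pool.Agent.H65.DP

variable {ι : Type} [Fintype ι]

lemma conj_wl (r τ : ℝ) (s : ℂ) :
    (starRingEnd ℂ) (wl r τ s) = wl r (-τ) ((starRingEnd ℂ) s) := by
  unfold wl
  simp only [map_add, map_mul, map_sub, map_div₀, map_one, map_ofNat, conj_ofReal, conj_I]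
  push_cast
  ring

lemma conj_B (f : Fac) (j : ℕ) (s : ℂ) :
    (starRingEnd ℂ) (f.B j s) = f.bar.B j ((starRingEnd ℂ) s) := by
  unfold Fac.B
  rw [map_sum]
  refine Finset.sum_congr rfl fun n _ => ?_
  rw [map_mul]
  congr 1
  have h1 : (starRingEnd ℂ) (-(wl f.r f.τ s)) = -(wl f.bar.r f.bar.τ ((starRingEnd ℂ) s)) := by
    rw [map_neg, conj_wl]
    rfl
  rw [← h1, cpow_conj _ _ (by rw [Complex.natCast_arg]; exact Real.pi_pos.ne), Complex.conj_natCast]

lemma conj_Pj (f : ι → Fac) (j : ι → ℕ) (s : ℂ) :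
    (starRingEnd ℂ) (Pj f j s) = Pj (fun l => (f l).bar) j ((starRingEnd ℂ) s) := by
  unfold Pj
  rw [map_prod]
  exact Finset.prod_congr rfl fun l _ => conj_B _ _ _

lemma mains_bar (f : ι → Fac) (D T : ℝ) : mains (fun l => (f l).bar) 1 D T = mains f 1 D T := rfl

theorem llx (h : T_TR) : T_LLX := by
  classical
  intro ι _ f x₂ D hx₂ hxD hr
  set fb : ι → Fac := fun l => (f l).bar with hfb
  obtain ⟨β₂, hβ₂, hTR⟩ := h ι fb 1 x₂ D hx₂ hxD one_pos hr
  obtain ⟨β₃, hβ₃, hPr⟩ := norm_Pr_sub_one fb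
  refine ⟨max β₂ β₃, lt_max_of_lt_left hβ₂, fun β hβ => ?_⟩
  have hβ2 : β₂ ≤ β := (le_max_left _ _).trans hβ
  have hβ3 : β₃ ≤ β := (le_max_right _ _).trans hβ
  have hβpos : 0 < β := hβ₂.trans_le hβ2
  obtain ⟨hx, -⟩ := hPr β hβ3
  obtain ⟨T₁, hT₁⟩ := hTR β hβ2
  have hD : 0 < D := by linarith
  have hμ : (0 : ℝ) < 1 := one_pos
  have hlog2 : 0 < Real.log 2 := Real.log_pos (by norm_num)
  have hπ : 0 < Real.sqrt Real.pi := Real.sqrt_pos.2 Real.pi_pos
  set L : ℝ := (Fintype.card ι : ℝ) with hL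
  have hL0 : 0 ≤ L := by positivity
  -- smallness
  have hlim1 : Tendsto (fun T : ℝ => Real.exp 1 * Real.exp (-(1 / 2 * Real.log T))) atTop
      (𝓝 (Real.exp 1 * 0)) := by
    refine Tendsto.const_mul _ (Real.tendsto_exp_atBot.comp ?_)
    exact tendsto_neg_atTop_atBot.comp (Real.tendsto_log_atTop.const_mul_atTop (by norm_num))
  rw [mul_zero] at hlim1
  have hlim2 := (tend_aux (3 / 2 * L * (D / 1) + x₂ * β + 1 / 2) 1 (1 / β ^ 2)
    (by positivity)).const_mul (2 / Real.sqrt Real.pi)
  rw [mul_zero] at hlim2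
  obtain ⟨T₀, hT₀⟩ := eventually_atTop.1 ((hlim1.eventually_le_const (show (0 : ℝ) < 1 / 16 by norm_num)).and
    ((hlim2.eventually_le_const (show (0 : ℝ) < 1 / 16 by norm_num)).and
      (eventually_ge_atTop (max T₁ 3))))
  refine ⟨T₀, fun T hT u ξ hξ0 hξ => ?_⟩
  obtain ⟨s1, s2, s4⟩ := hT₀ T hT
  have hT1 : T₁ ≤ T := (le_max_left _ _).trans s4
  have hT3 : 3 ≤ T := (le_max_right _ _).trans s4
  have hTpos : 0 < T := by linarith
  have hlogT : 0 < Real.log T := Real.log_pos (by linarith)
  set R := Real.log T with hR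
  -- the functions on the line
  set g : ℝ → ℂ := fun y => gx β ξ (-β + y * I) with hg
  set A : ℝ → ℂ := fun y => Pr fb (1 / 2 + β - (u + y : ℝ) * I) with hA
  set P : (ι → ℕ) → ℝ → ℂ := fun j y => Pj fb j (1 / 2 + β - (u + y : ℝ) * I) with hP
  have hgc : Continuous g := continuous_gx β ξ (-β : ℂ)
  have hAc : Continuous A := by
    have h3 := continuous_Pr fb (1 / 2 + β) (fun l => by
      have := hx l
      rw [add_sub_cancel_left]; linarith)
    have h4 : A = (fun t : ℝ => Pr fb (((1 / 2 + β : ℝ) : ℂ) + t * I)) ∘ fun y => -(u + y) := by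
      funext y
      simp only [hA, Function.comp]
      congr 1
      push_cast; ring
    rw [h4]
    exact h3.comp (by fun_prop)
  have hPc : ∀ j, Continuous (P j) := by
    intro j
    have h3 := (differentiable_Pj fb j).continuous
    exact h3.comp (by fun_prop)
  have hRR : -R ≤ R := by linarith
  have hAi : IntervalIntegrable (fun y => A y * g y) volume (-R) R :=
    (hAc.mul hgc).intervalIntegrable _ _
  have hPi : ∀ j, IntervalIntegrable (fun y => P j y * g y) volume (-R) R := fun j =>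
    ((hPc j).mul hgc).intervalIntegrable _ _
  have hLR : LR f β ξ R u = ∫ y in (-R)..R, A y * g y := rfl
  -- first part
  have hsub : (∫ y in (-R)..R, A y * g y) - ∑ j ∈ mains f 1 D T, ∫ y in (-R)..R, P j y * g y =
      ∫ y in (-R)..R, (A y - ∑ j ∈ mains f 1 D T, P j y) * g y := by
    have hSi : IntervalIntegrable (fun y => ∑ j ∈ mains f 1 D T, P j y * g y) volume (-R) R :=
      (continuous_finsetSum _ fun j _ => (hPc j).mul hgc).intervalIntegrable _ _
    have := intervalIntegral.integral_sub (f := fun y => A y * g y)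
      (g := fun y => ∑ j ∈ mains f 1 D T, P j y * g y) hAi hSi
    rw [← intervalIntegral.integral_finsetSum fun j _ => hPi j, ← this]
    refine intervalIntegral.integral_congr fun y _ => ?_
    show A y * g y - ∑ j ∈ mains f 1 D T, P j y * g y = _
    rw [← Finset.sum_mul]
    ring
  have hgx : ∀ x y : ℝ, -β ≤ x → x ≤ 0 → ‖gx β ξ (x + y * I)‖ ≤
      Real.exp (x₂ * β * Real.log T) * ‖gs β (x + y * I)‖ := by
    intro x y h1 h2
    rw [norm_gx hβpos, norm_gs hβpos]
    refine mul_le_mul_of_nonneg_right (Real.exp_le_exp.2 ?_) (by positivity)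
    have h3 : (-x) * ξ ≤ β * (x₂ * R) := by
      have h4 : (-x) * ξ ≤ β * ξ := mul_le_mul_of_nonneg_right (by linarith) hξ0
      have h5 := mul_le_mul_of_nonneg_left hξ hβpos.le
      linarith
    linarith
  have hpart1 : ‖∫ y in (-R)..R, (A y - ∑ j ∈ mains f 1 D T, P j y) * g y‖ ≤
      1 / 16 * Real.exp (-(1 / 2 * Real.log T)) := by
    have h1 : ‖∫ y in (-R)..R, (A y - ∑ j ∈ mains f 1 D T, P j y) * g y‖ ≤
        ∫ y in (-R)..R, (T ^ (-(x₂ * β) - 1) *
          Real.exp (x₂ * β * Real.log T)) * ‖gs β ((-β : ℝ) + y * I)‖ := by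
      refine intervalIntegral.norm_integral_le_of_norm_le hRR ?_
        ((continuous_const.mul (continuous_gs β ((-β : ℝ) : ℂ)).norm).intervalIntegrable _ _)
      refine Eventually.of_forall fun y hy => ?_
      simp only [hg]
      rw [norm_mul, mul_assoc]
      refine mul_le_mul ?_ ?_ (by positivity) (by positivity)
      · have e := hT₁ T hT1 (-(u + y))
        have e1 : (1 / 2 + β + ((-(u + y) : ℝ) : ℂ) * I : ℂ) = 1 / 2 + β - (u + y : ℝ) * I := by
          push_cast; ring
        rw [e1] at e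
        exact e
      · have := hgx (-β) y le_rfl (by linarith)
        push_cast at this ⊢
        exact this
    rw [intervalIntegral.integral_const_mul] at h1
    have h2 := intervalIntegral_norm_gs_le hβpos (-β) R hlogT.le
    have h5 : Real.exp ((-β) ^ 2 / β ^ 2) = Real.exp 1 := by
      congr 1
      field_simp
    rw [h5] at h2
    refine (h1.trans (mul_le_mul_of_nonneg_left h2 (by positivity))).trans ?_
    have h6 : T ^ (-(x₂ * β) - 1) * Real.exp (x₂ * β * Real.log T) * Real.exp 1 =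
        (Real.exp 1 * Real.exp (-(1 / 2 * Real.log T))) * Real.exp (-(1 / 2 * Real.log T)) := by
      have h7 : Real.exp (Real.log T * (-(x₂ * β) - 1)) * Real.exp (x₂ * β * Real.log T) =
          Real.exp (-(1 / 2 * Real.log T)) * Real.exp (-(1 / 2 * Real.log T)) := by
        rw [← Real.exp_add, ← Real.exp_add]
        congr 1
        ring
      rw [Real.rpow_def_of_pos hTpos]
      linear_combination (Real.exp 1) * h7
    rw [h6]
    exact mul_le_mul_of_nonneg_right s1 (Real.exp_pos _).le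
  -- second part
  have hpart2 : ∀ j ∈ mains f 1 D T, ‖(∫ y in (-R)..R, P j y * g y) - LX f β ξ R j u‖ ≤
      2 * β * (Real.exp (L * (D / 1) / 2 * Real.log T) *
        (Real.exp (x₂ * β * Real.log T) *
        (Real.exp (1 - 1 / β ^ 2 * R ^ 2) / (β * Real.sqrt Real.pi)))) := by
    intro j hj
    set F : ℂ → ℂ := fun z => Pj fb j (1 / 2 - z - u * I) * gx β ξ z with hF
    have hside : ∀ (x t : ℝ), -β ≤ x → x ≤ 0 → |t| = R →
        ‖F (x + ((0 : ℝ) + t : ℝ) * I)‖ ≤ Real.exp (L * (D / 1) / 2 * Real.log T) *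
        (Real.exp (x₂ * β * Real.log T) *
        (Real.exp (1 - 1 / β ^ 2 * R ^ 2) / (β * Real.sqrt Real.pi))) := by
      intro x t hx1 hx2 ht
      simp only [hF]
      rw [norm_mul, zero_add]
      refine mul_le_mul ?_ ?_ (norm_nonneg _) (Real.exp_pos _).le
      · have hre : (1 / 2 - ((x : ℂ) + (t : ℝ) * I) - u * I).re = 1 / 2 - x := by simp
        refine (norm_Pj_le fb j _ (by rw [hre]; linarith)).trans (Real.exp_le_exp.2 ?_)
        have hj' : j ∈ mains fb 1 D T := hj
        have h1 := (mem_mains fb hμ hD (by linarith) j hj').1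
        have h2 : ∑ l, (j l : ℝ) * (1 * Real.log 2) ≤ L * (D * Real.log T) := by
          refine (Finset.sum_le_card_nsmul _ _ _ fun l _ => h1 l).trans ?_
          rw [Finset.card_univ, nsmul_eq_mul]
        rw [← Finset.sum_mul] at h2
        have h3 : (∑ l, (j l : ℝ)) * Real.log 2 ≤ L * (D / 1) * Real.log T := by
          rw [one_mul] at h2
          rw [div_one]
          linarith
        have h4 : 0 ≤ ∑ l, (j l : ℝ) * (fb l).r * Real.log 2 := Finset.sum_nonneg fun l _ => by
          have := (fb l).r_pos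
          positivity
        have h6 : 0 ≤ ((1 / 2 - ((x : ℂ) + (t : ℝ) * I) - u * I).re - 1 / 2) *
            ∑ l, (j l : ℝ) * (fb l).r * Real.log 2 := by
          rw [hre]
          exact mul_nonneg (by linarith) h4
        linarith
      · refine (hgx x t hx1 hx2).trans ?_
        refine mul_le_mul_of_nonneg_left ?_ (Real.exp_pos _).le
        rw [norm_gs hβpos]
        refine div_le_div_of_nonneg_right (Real.exp_le_exp.2 ?_) (by positivity)
        have h2 : t ^ 2 = R ^ 2 := by rw [← sq_abs, ht]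
        rw [h2, sub_div]
        have h3 : x ^ 2 / β ^ 2 ≤ 1 := by
          rw [div_le_one (by positivity)]
          nlinarith
        have h4 : R ^ 2 / β ^ 2 = 1 / β ^ 2 * R ^ 2 := by ring
        rw [h4]
        linarith
    have hdiff : ∀ s : ℂ, -β ≤ s.re → s.re ≤ 0 → |s.im - 0| ≤ R → DifferentiableAt ℂ F s := by
      intro s _ _ _
      have h6 : DifferentiableAt ℂ (fun z : ℂ => Pj fb j (1 / 2 - z - u * I)) s := by
        have := differentiable_Pj fb j (1 / 2 - s - u * I)
        exact this.comp (f := fun z : ℂ => 1 / 2 - z - u * I) s (by fun_prop)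
      exact h6.mul (differentiable_gx β ξ s)
    have key := shift_rect F (a := -β) (b := 0) (u := 0) (R := R) (by linarith) hlogT.le
      hdiff (fun x hx1 hx2 => by
        have := hside x (-R) hx1 hx2 (by rw [abs_neg, abs_of_pos hlogT])
        rwa [← sub_eq_add_neg] at this)
      (fun x hx1 hx2 => hside x R hx1 hx2 (abs_of_pos hlogT))
    have e1 : ∫ y in (-R)..R, P j y * g y =
        ∫ y in (-R)..R, F (((-β : ℝ) : ℂ) + ((0 : ℝ) + y : ℝ) * I) := by
      refine intervalIntegral.integral_congr fun y _ => ?_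
      simp only [hP, hg, hF]
      rw [show (((-β : ℝ) : ℂ) + ((0 : ℝ) + y : ℝ) * I) = -β + y * I by push_cast; ring,
        show (1 / 2 - (-β + y * I) - u * I : ℂ) = 1 / 2 + β - (u + y : ℝ) * I by push_cast; ring]
    have e2 : LX f β ξ R j u = ∫ y in (-R)..R, F (((0 : ℝ) : ℂ) + ((0 : ℝ) + y : ℝ) * I) := by
      unfold LX
      refine intervalIntegral.integral_congr fun y _ => ?_
      simp only [hF]
      rw [conj_Pj]
      rw [show (((0 : ℝ) : ℂ) + ((0 : ℝ) + y : ℝ) * I) = y * I by push_cast; ring]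
      congr 2
      simp only [map_add, map_mul, map_div₀, map_one, map_ofNat, conj_ofReal, conj_I]
      push_cast
      ring
    rw [e1, e2, norm_sub_rev]
    rw [norm_sub_rev]
    rw [norm_sub_rev] at key
    refine key.trans (le_of_eq ?_)
    ring
  have hcard := card_mains_le f hμ hD (show 1 ≤ T by linarith)
  rw [← hL] at hcard
  rw [hLR]
  have hfin : (∫ y in (-R)..R, A y * g y) - ∑ j ∈ mains f 1 D T, LX f β ξ R j u =
      ((∫ y in (-R)..R, A y * g y) - ∑ j ∈ mains f 1 D T, ∫ y in (-R)..R, P j y * g y) +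
        ∑ j ∈ mains f 1 D T, ((∫ y in (-R)..R, P j y * g y) - LX f β ξ R j u) := by
    rw [Finset.sum_sub_distrib]
    ring
  rw [hfin, hsub]
  have hsum2 : ‖∑ j ∈ mains f 1 D T, ((∫ y in (-R)..R, P j y * g y) - LX f β ξ R j u)‖ ≤
      1 / 16 * Real.exp (-(1 / 2 * Real.log T)) := by
    refine (norm_sum_le _ _).trans ((Finset.sum_le_card_nsmul _ _ _ hpart2).trans ?_)
    rw [nsmul_eq_mul]
    refine (mul_le_mul_of_nonneg_right hcard (by positivity)).trans ?_
    refine le_trans (le_of_eq ?_) (mul_le_mul_of_nonneg_right s2 (Real.exp_pos _).le)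
    have h1 : (3 / 2 * L * (D / 1) + x₂ * β + 1 / 2) * Real.log T + 1 -
        1 / β ^ 2 * Real.log T ^ 2 = 1 / 2 * Real.log T + (L * (D / 1) * Real.log T +
          (L * (D / 1) / 2 * Real.log T +
          (x₂ * β * Real.log T + (1 - 1 / β ^ 2 * R ^ 2)))) := by
      rw [← hR]
      ring
    have h2 : Real.exp (1 / 2 * Real.log T) * Real.exp (-(1 / 2 * Real.log T)) = 1 := by
      rw [← Real.exp_add]; simp
    rw [h1, Real.exp_add (1 / 2 * Real.log T), Real.exp_add (L * (D / 1) * Real.log T),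
      Real.exp_add (L * (D / 1) / 2 * Real.log T),
      Real.exp_add (x₂ * β * Real.log T)]
    generalize Real.exp (1 / 2 * Real.log T) = e1 at h2 ⊢
    generalize Real.exp (-(1 / 2 * Real.log T)) = e2 at h2 ⊢
    generalize Real.exp (L * (D / 1) * Real.log T) = e3
    generalize Real.exp (L * (D / 1) / 2 * Real.log T) = e4
    generalize Real.exp (x₂ * β * Real.log T) = e5
    generalize Real.exp (1 - 1 / β ^ 2 * R ^ 2) = e6
    have h3 : 2 / Real.sqrt Real.pi * (e1 * (e3 * (e4 * (e5 * e6)))) * e2 =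
        2 / Real.sqrt Real.pi * (e3 * (e4 * (e5 * e6))) := by
      linear_combination (2 / Real.sqrt Real.pi * (e3 * (e4 * (e5 * e6)))) * h2
    rw [h3]
    field_simp
  refine (norm_add_le _ _).trans ?_
  rw [Real.rpow_def_of_pos hTpos, show Real.log T * -(1 / 2) = -(1 / 2 * Real.log T) by ring]
  have h9 := Real.exp_pos (-(1 / 2 * Real.log T))
  linarith

end Pool.Agent.H19.DP.LLX
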