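import Pool.Agent.H19.DP.PW0
import Pool.Agent.H98.KS.Targets1

/-!
Module PW of the project DP: an arbitrary function along the values of a polynomial.
-/

set_option autoImplicit false

open Finset

namespace Pool.Agent.H19.DP.PW

open Pool.Agent.H31.DP

theorem ee_ks (x : ℝ) : Pool.Agent.H98.KS.ee x = ee x := by
  unfold ee Pool.Agent.H98.KS.ee
  congr 1
  ring

/-- The number of frequencies with a large Weyl sum is bounded. -/
theorem weyl_count (hWK : Pool.Agent.H98.KS.T_WK) (P : Polynomial ℤ) (hP : 0 < P.natDegree)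
    (c : ℕ) (δ : ℝ) (hδ : 0 < δ) (hδ1 : δ ≤ 1) :
    ∃ R : ℕ, ∀ (M T : ℕ), 0 < M → 1 ≤ T → M ≤ c * T ^ P.natDegree →
      ∀ B : Finset ℤ, (∀ z ∈ B, |z| < M ∧
        δ * T ≤ ‖∑ t ∈ Icc 1 T, ee ((z : ℝ) * (((P.eval (t : ℤ) : ℤ) : ℝ) / M))‖) →
        B.card ≤ R := by
  classical
  obtain ⟨A, -, hA⟩ := hWK P.natDegree hP
  set B₀ : ℝ := A * (1 / δ) ^ A with hB₀
  have hB₀0 : 0 ≤ B₀ := by positivity
  set b : ℕ := ⌈B₀⌉₊ with hb
  have hbB : B₀ ≤ b := Nat.le_ceil _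
  set lc : ℤ := P.leadingCoeff with hlc
  have hlc0 : lc ≠ 0 := by
    rw [hlc, Ne, Polynomial.leadingCoeff_eq_zero]
    rintro rfl
    simp at hP
  set Q₁ : ℤ := b * P.natDegree.factorial * |lc| with hQ₁
  have hQ₁0 : 0 ≤ Q₁ := by positivity
  set Q₂ : ℤ := b * c with hQ₂
  refine ⟨(Icc (-Q₁) Q₁ ×ˢ (Icc (-(Q₁ + 1)) (Q₁ + 1) ×ˢ Icc (-Q₂) Q₂)).card, ?_⟩
  intro M T hM hT hMT B hB
  have hM' : (0 : ℝ) < M := by exact_mod_cast hM
  have hTd : (0 : ℝ) < (T : ℝ) ^ P.natDegree := by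
    have : (0 : ℝ) < T := by exact_mod_cast hT
    positivity
  have key : ∀ z ∈ B, ∃ s : ℤ × (ℤ × ℤ), s ∈ Icc (-Q₁) Q₁ ×ˢ
      (Icc (-(Q₁ + 1)) (Q₁ + 1) ×ˢ Icc (-Q₂) Q₂) ∧ s.1 ≠ 0 ∧ s.1 * z = s.2.2 + s.2.1 * M := by
    intro z hz
    obtain ⟨hzM, hzW⟩ := hB z hz
    set Q : Polynomial ℝ := Polynomial.C ((z : ℝ) / M) * P.map (Int.castRingHom ℝ) with hQ
    have hQd : Q.natDegree ≤ P.natDegree :=
      (Polynomial.natDegree_C_mul_le _ _).trans Polynomial.natDegree_map_le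
    have hQc : Q.coeff P.natDegree = (z : ℝ) / M * lc := by
      rw [hQ, Polynomial.coeff_C_mul, Polynomial.coeff_map]
      rfl
    have hsum : ∑ x ∈ range T, Pool.Agent.H98.KS.ee (Q.eval (((1 : ℤ) : ℝ) + x)) =
        ∑ t ∈ Icc 1 T, ee ((z : ℝ) * (((P.eval (t : ℤ) : ℤ) : ℝ) / M)) := by
      have e1 : Icc 1 T = Ico 1 (T + 1) := by
        ext t
        rw [Finset.mem_Icc, Finset.mem_Ico]
        omega
      rw [e1, Finset.sum_Ico_eq_sum_range, Nat.add_sub_cancel]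
      refine Finset.sum_congr rfl fun x _ => ?_
      rw [ee_ks, hQ, Polynomial.eval_mul, Polynomial.eval_C]
      have e2 : (((1 : ℤ) : ℝ) + x) = (((1 + x : ℕ) : ℤ) : ℝ) := by push_cast; ring
      rw [e2, Polynomial.eval_intCast_map]
      congr 1
      simp only [eq_intCast, Int.cast_id]
      ring
    obtain ⟨q, hq1, hq2, hq3⟩ := hA Q 1 T T δ hQd (by exact_mod_cast hT) le_rfl hδ hδ1
      (by rw [hsum]; exact hzW)
    rw [hQc] at hq3
    rw [← hB₀] at hq2 hq3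
    have hqb : q ≤ b := by
      have h1 : (q : ℝ) ≤ b := hq2.trans hbB
      exact_mod_cast h1
    set s : ℤ := q * P.natDegree.factorial * lc with hs
    set j : ℤ := round ((q : ℝ) * ((P.natDegree.factorial : ℝ) * ((z : ℝ) / M * lc))) with hj
    have hval : (q : ℝ) * ((P.natDegree.factorial : ℝ) * ((z : ℝ) / M * lc)) =
        ((s * z : ℤ) : ℝ) / M := by
      rw [hs]
      push_cast
      ring
    unfold Pool.Agent.H98.KS.dn at hq3
    rw [← hj, hval] at hq3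
    have hs0 : s ≠ 0 := by
      rw [hs]
      refine mul_ne_zero (mul_ne_zero ?_ ?_) hlc0
      · exact_mod_cast (Nat.one_le_iff_ne_zero.1 hq1)
      · exact_mod_cast (Nat.factorial_pos _).ne'
    have hsQ : |s| ≤ Q₁ := by
      rw [hs, hQ₁, abs_mul, abs_mul, Nat.abs_cast, Nat.abs_cast]
      have h1 : (q : ℤ) ≤ b := by exact_mod_cast hqb
      exact mul_le_mul_of_nonneg_right (mul_le_mul_of_nonneg_right h1 (by positivity))
        (abs_nonneg _)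
    have hjr : |((s * z : ℤ) : ℝ) / M - j| ≤ 1 / 2 := by
      rw [hj, hval]
      exact abs_sub_round _
    have hjQ : |j| ≤ Q₁ + 1 := by
      have h1 : |((s * z : ℤ) : ℝ) / M| ≤ (Q₁ : ℝ) := by
        rw [abs_div, abs_of_pos hM', div_le_iff₀ hM']
        have h2 : |s * z| ≤ Q₁ * M := by
          rw [abs_mul]
          exact mul_le_mul hsQ hzM.le (abs_nonneg _) hQ₁0
        exact_mod_cast h2
      have h3 : |(j : ℝ)| ≤ (Q₁ : ℝ) + 1 / 2 := by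
        have h4 : (j : ℝ) = ((s * z : ℤ) : ℝ) / M - (((s * z : ℤ) : ℝ) / M - j) := by ring
        rw [h4]
        exact (abs_sub _ _).trans (add_le_add h1 hjr)
      have h5 : |(j : ℝ)| ≤ ((Q₁ + 1 : ℤ) : ℝ) := by
        push_cast
        linarith
      exact_mod_cast h5
    have hrQ : |s * z - j * M| ≤ Q₂ := by
      have h1 : |((s * z - j * M : ℤ) : ℝ)| = |((s * z : ℤ) : ℝ) / M - j| * M := by
        have e : ((s * z - j * M : ℤ) : ℝ) = (((s * z : ℤ) : ℝ) / M - j) * M := by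
          push_cast
          field_simp
        rw [e, abs_mul, abs_of_pos hM']
      have h2 : |((s * z : ℤ) : ℝ) / M - j| * M ≤ B₀ * c := by
        have h3 : (M : ℝ) ≤ c * (T : ℝ) ^ P.natDegree := by exact_mod_cast hMT
        calc |((s * z : ℤ) : ℝ) / M - j| * M ≤ (B₀ / (T : ℝ) ^ P.natDegree) *
              (c * (T : ℝ) ^ P.natDegree) :=
            mul_le_mul hq3 h3 hM'.le (by positivity)
          _ = B₀ * c := by field_simp
      have h4 : |((s * z - j * M : ℤ) : ℝ)| ≤ ((Q₂ : ℤ) : ℝ) := by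
        have hQ2r : ((Q₂ : ℤ) : ℝ) = (b : ℝ) * c := by
          rw [hQ₂]
          push_cast
          ring
        rw [h1, hQ2r]
        exact h2.trans (mul_le_mul_of_nonneg_right hbB (Nat.cast_nonneg _))
      exact_mod_cast h4
    refine ⟨(s, (j, s * z - j * M)), ?_, hs0, by ring⟩
    simp only [Finset.mem_product, Finset.mem_Icc]
    exact ⟨abs_le.1 hsQ, abs_le.1 hjQ, abs_le.1 hrQ⟩
  choose! f hf1 hf2 hf3 using key
  refine Finset.card_le_card_of_injOn f (fun z hz => hf1 z hz) ?_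
  intro z hz z' hz' h
  have h1 := hf3 z hz
  have h2 := hf3 z' hz'
  rw [← h, ← h1] at h2
  exact (mul_left_cancel₀ (hf2 z hz) h2).symm

/-- The values of a polynomial. -/
theorem eval_le (P : Polynomial ℤ) : ∃ c : ℕ, ∀ t : ℕ, 1 ≤ t →
    |P.eval (t : ℤ)| ≤ c * (t : ℤ) ^ P.natDegree := by
  refine ⟨∑ i ∈ range (P.natDegree + 1), (P.coeff i).natAbs, fun t ht => ?_⟩
  rw [Polynomial.eval_eq_sum_range]
  refine (Finset.abs_sum_le_sum_abs _ _).trans ?_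
  push_cast
  rw [Finset.sum_mul]
  refine Finset.sum_le_sum fun i hi => ?_
  rw [abs_mul, abs_pow, Nat.abs_cast]
  refine mul_le_mul_of_nonneg_left ?_ (abs_nonneg _)
  exact pow_le_pow_right₀ (by exact_mod_cast ht)
    (Nat.lt_succ_iff.1 (Finset.mem_range.1 hi))

/-- The inversion of the Fourier transform. -/
theorem inv (M N H : ℕ) (hM : 0 < M) (F : ℕ → ℂ) (u : ℤ → ℂ) (k : ℤ)
    (hu : ∀ m, u m ≠ 0 → |m| ≤ H) (hMk : ∀ n ∈ Icc 1 N, ∀ m ∈ Icc (-(H : ℤ)) H,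
      |(n : ℤ) + k - m| < M) :
    (M : ℂ) * ∑ n ∈ Icc 1 N, F n * u (n + k) =
      ∑ ξ ∈ range M, ((∑ m ∈ Icc (-(H : ℤ)) H, u m * ee ((m : ℝ) * (((-1 : ℤ) : ℝ) * (ξ / M)))) *
        (∑ n ∈ Icc 1 N, F n * ee ((((n : ℤ)) : ℝ) * (((1 : ℤ) : ℝ) * (ξ / M))))) *
          ee ((ξ : ℝ) * ((k : ℝ) / M)) := by
  classical
  have h1 : ∀ ξ ∈ range M, ((∑ m ∈ Icc (-(H : ℤ)) H,
      u m * ee ((m : ℝ) * (((-1 : ℤ) : ℝ) * (ξ / M)))) *
        (∑ n ∈ Icc 1 N, F n * ee ((((n : ℤ)) : ℝ) * (((1 : ℤ) : ℝ) * (ξ / M))))) *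
          ee ((ξ : ℝ) * ((k : ℝ) / M)) =
      ∑ n ∈ Icc 1 N, ∑ m ∈ Icc (-(H : ℤ)) H, F n * u m *
        ee ((((n : ℤ) + k - m : ℤ) : ℝ) * (ξ / M)) := by
    intro ξ _
    rw [Finset.sum_mul_sum, Finset.sum_comm, Finset.sum_mul]
    refine Finset.sum_congr rfl fun n _ => ?_
    rw [Finset.sum_mul]
    refine Finset.sum_congr rfl fun m _ => ?_
    have e : ((((n : ℤ) + k - m : ℤ) : ℝ) * ((ξ : ℝ) / M)) =
        ((m : ℝ) * (((-1 : ℤ) : ℝ) * (ξ / M)) + (((n : ℤ)) : ℝ) * (((1 : ℤ) : ℝ) * (ξ / M))) +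
          (ξ : ℝ) * ((k : ℝ) / M) := by
      push_cast
      ring
    rw [e, ee_add, ee_add]
    ring
  rw [Finset.sum_congr rfl h1, Finset.sum_comm, Finset.mul_sum]
  refine Finset.sum_congr rfl fun n hn => ?_
  rw [Finset.sum_comm]
  have h2 : ∀ m ∈ Icc (-(H : ℤ)) H, ∑ ξ ∈ range M, F n * u m *
      ee ((((n : ℤ) + k - m : ℤ) : ℝ) * (ξ / M)) =
        if m = n + k then M * (F n * u (n + k)) else 0 := by
    intro m hm
    rw [← Finset.mul_sum, orth M hM]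
    have h3 : (M : ℤ) ∣ (n : ℤ) + k - m ↔ m = n + k := by
      constructor
      · intro h
        have h4 := Int.eq_zero_of_abs_lt_dvd h (hMk n hn m hm)
        linarith
      · rintro rfl
        rw [sub_self]
        exact dvd_zero _
    simp only [h3]
    split_ifs with h5
    · rw [h5]
      ring
    · ring
  rw [Finset.sum_congr rfl h2, Finset.sum_ite_eq']
  split_ifs with h6
  · rfl
  · have h7 : u (n + k) = 0 := by
      by_contra hne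
      apply h6
      rw [Finset.mem_Icc]
      exact abs_le.1 (hu _ hne)
    rw [h7, mul_zero, mul_zero]

/-- The bound for one scale, with all parameters. -/
theorem bound (P : Polynomial ℤ) (C cP R N T M : ℕ) (δ ε : ℝ)
    (hcP : ∀ t : ℕ, 1 ≤ t → |P.eval (t : ℤ)| ≤ cP * (t : ℤ) ^ P.natDegree)
    (hM : M = 2 * (C + cP + 1) * N + 1) (hN : 1 ≤ N) (hTN : T ^ P.natDegree ≤ N)
    (hδ : 0 ≤ δ)
    (hR : ∀ B : Finset ℤ, (∀ z ∈ B, |z| < M ∧
        δ * T ≤ ‖∑ t ∈ Icc 1 T, ee ((z : ℝ) * (((P.eval (t : ℤ) : ℤ) : ℝ) / M))‖) →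
        B.card ≤ R)
    (F : ℕ → ℂ) (u : ℤ → ℂ) (hF : ∀ n, ‖F n‖ ≤ 1) (hu : ∀ m, ‖u m‖ ≤ 1)
    (hus : ∀ m, u m ≠ 0 → |m| ≤ (C * N : ℕ))
    (huθ : ∀ θ : ℝ, ‖∑ m ∈ Icc (-((C * N : ℕ) : ℤ)) ((C * N : ℕ) : ℤ), u m * ee (m * θ)‖ ≤
      ε * N) :
    ∑ t ∈ Icc 1 T, ‖∑ n ∈ Icc 1 N, F n * u (n + P.eval (t : ℤ))‖ ^ 2 ≤
      (δ * (2 * C + 1) + R * ε ^ 2) * (N : ℝ) ^ 2 * T := by
  classical
  have hMpos : 0 < M := by omega
  have hM0 : (0 : ℝ) < M := by exact_mod_cast hMpos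
  have hN0 : (0 : ℝ) < N := by exact_mod_cast hN
  set U : ℕ → ℂ := fun ξ => ∑ m ∈ Icc (-((C * N : ℕ) : ℤ)) ((C * N : ℕ) : ℤ),
    u m * ee ((m : ℝ) * (((-1 : ℤ) : ℝ) * (ξ / M))) with hU
  set G : ℕ → ℂ := fun ξ => ∑ n ∈ Icc 1 N,
    F n * ee ((((n : ℤ)) : ℝ) * (((1 : ℤ) : ℝ) * (ξ / M))) with hG
  have hUle : ∀ ξ, ‖U ξ‖ ≤ ε * N := fun ξ => huθ _
  have hcardU : ((Icc (-((C * N : ℕ) : ℤ)) ((C * N : ℕ) : ℤ)).card : ℝ) = 2 * (C * N) + 1 := by
    rw [Int.card_Icc]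
    have e : (((C * N : ℕ) : ℤ) + 1 - -((C * N : ℕ) : ℤ)).toNat = 2 * (C * N) + 1 := by omega
    rw [e]
    push_cast
    ring
  have hU2 : ∑ ξ ∈ range M, ‖U ξ‖ ^ 2 ≤ M * (2 * (C * N) + 1) := by
    have h1 := parseval M hMpos (Icc (-((C * N : ℕ) : ℤ)) ((C * N : ℕ) : ℤ)) (fun m => m)
      (fun i hi j hj h => by
        rw [Finset.mem_Icc] at hi hj
        have h4 : i - j = 0 := by
          apply Int.eq_zero_of_abs_lt_dvd h
          rw [abs_lt, hM]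
          push_cast at hi hj ⊢
          constructor <;> nlinarith
        linarith) u hu (-1) (Or.inr rfl)
    rw [hcardU] at h1
    exact h1
  have hG2 : ∑ ξ ∈ range M, ‖G ξ‖ ^ 2 ≤ M * N := by
    have h1 := parseval M hMpos (Icc 1 N) (fun n => (n : ℤ))
      (fun i hi j hj h => by
        rw [Finset.mem_Icc] at hi hj
        have h4 : (i : ℤ) - j = 0 := by
          apply Int.eq_zero_of_abs_lt_dvd h
          rw [abs_lt, hM]
          push_cast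
          constructor <;> nlinarith
        omega) F hF 1 (Or.inl rfl)
    rw [Nat.card_Icc, Nat.add_sub_cancel] at h1
    exact h1
  -- inversion
  have hinv : ∀ t ∈ Icc 1 T, ‖∑ n ∈ Icc 1 N, F n * u (n + P.eval (t : ℤ))‖ ^ 2 =
      (1 / (M : ℝ) ^ 2) * ‖∑ ξ ∈ range M, (U ξ * G ξ) *
        ee ((ξ : ℝ) * (((P.eval (t : ℤ) : ℤ) : ℝ) / M))‖ ^ 2 := by
    intro t ht
    rw [Finset.mem_Icc] at ht
    have h1 : |P.eval (t : ℤ)| ≤ cP * N := by
      refine (hcP t ht.1).trans ?_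
      have h2 : t ^ P.natDegree ≤ N := (Nat.pow_le_pow_left ht.2 _).trans hTN
      have h3 : ((t : ℤ)) ^ P.natDegree ≤ N := by exact_mod_cast h2
      exact mul_le_mul_of_nonneg_left h3 (Nat.cast_nonneg _)
    have h2 := inv M N (C * N) hMpos F u (P.eval (t : ℤ)) hus (fun n hn m hm => by
      rw [Finset.mem_Icc] at hn hm
      have h3 := abs_le.1 h1
      rw [abs_lt, hM]
      push_cast at hm ⊢
      constructor <;> nlinarith)
    rw [← h2, norm_mul, mul_pow, Complex.norm_natCast]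
    field_simp
  rw [Finset.sum_congr rfl hinv, ← Finset.mul_sum]
  have hq := quad M (fun ξ => U ξ * G ξ) (Icc 1 T)
    (fun t => ((P.eval (t : ℤ) : ℤ) : ℝ) / M)
  -- the exceptional set
  set B : Finset ℤ := (Icc (-(M : ℤ)) M).filter (fun z => |z| < M ∧
    δ * T ≤ ‖∑ t ∈ Icc 1 T, ee ((z : ℝ) * (((P.eval (t : ℤ) : ℤ) : ℝ) / M))‖) with hB
  have hBR : B.card ≤ R := hR B fun z hz => (Finset.mem_filter.1 hz).2
  have hs := schur M (fun ξ => ‖U ξ * G ξ‖) (fun ξ => norm_nonneg _)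
    (fun z => ‖∑ t ∈ Icc 1 T, ee ((z : ℝ) * (((P.eval (t : ℤ) : ℤ) : ℝ) / M))‖) B (δ * T) T
    (by positivity) (by positivity)
    (fun z hz => by
      by_cases h : δ * T ≤ ‖∑ t ∈ Icc 1 T, ee ((z : ℝ) * (((P.eval (t : ℤ) : ℤ) : ℝ) / M))‖
      · right
        rw [hB, Finset.mem_filter, Finset.mem_Icc]
        have h1 := abs_lt.1 hz
        exact ⟨⟨h1.1.le, h1.2.le⟩, hz, h⟩
      · left
        exact (not_le.1 h).le)
    (fun z => by
      refine (norm_sum_le _ _).trans ?_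
      simp only [norm_ee]
      simp)
  have hq2 : ∑ ξ ∈ range M, ∑ ζ ∈ range M, ‖U ξ * G ξ‖ * ‖U ζ * G ζ‖ *
      ‖∑ t ∈ Icc 1 T, ee (((ξ : ℝ) - ζ) * (((P.eval (t : ℤ) : ℤ) : ℝ) / M))‖ =
      ∑ ξ ∈ range M, ∑ ζ ∈ range M, ‖U ξ * G ξ‖ * ‖U ζ * G ζ‖ *
      ‖∑ t ∈ Icc 1 T, ee (((((ξ : ℤ) - ζ : ℤ)) : ℝ) * (((P.eval (t : ℤ) : ℤ) : ℝ) / M))‖ := by
    refine Finset.sum_congr rfl fun ξ _ => Finset.sum_congr rfl fun ζ _ => ?_
    push_cast
    rfl
  rw [hq2] at hq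
  have h1 := hq.trans hs
  -- the moments
  have hA2 : ∑ ξ ∈ range M, ‖U ξ * G ξ‖ ^ 2 ≤ (ε * N) ^ 2 * (M * N) := by
    calc ∑ ξ ∈ range M, ‖U ξ * G ξ‖ ^ 2 ≤ ∑ ξ ∈ range M, (ε * N) ^ 2 * ‖G ξ‖ ^ 2 := by
          refine Finset.sum_le_sum fun ξ _ => ?_
          rw [norm_mul, mul_pow]
          exact mul_le_mul_of_nonneg_right
            (pow_le_pow_left₀ (norm_nonneg _) (hUle ξ) 2) (by positivity)
      _ = (ε * N) ^ 2 * ∑ ξ ∈ range M, ‖G ξ‖ ^ 2 := by rw [Finset.mul_sum]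
      _ ≤ (ε * N) ^ 2 * (M * N) := mul_le_mul_of_nonneg_left hG2 (by positivity)
  have hA1 : (∑ ξ ∈ range M, ‖U ξ * G ξ‖) ^ 2 ≤ (M * (2 * (C * N) + 1)) * (M * N) := by
    have h2 : (∑ ξ ∈ range M, ‖U ξ * G ξ‖) ^ 2 ≤
        (∑ ξ ∈ range M, ‖U ξ‖ ^ 2) * ∑ ξ ∈ range M, ‖G ξ‖ ^ 2 := by
      simp only [norm_mul]
      exact Finset.sum_mul_sq_le_sq_mul_sq _ _ _
    refine h2.trans (mul_le_mul hU2 hG2 ?_ (by positivity))
    exact Finset.sum_nonneg fun ξ _ => by positivity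
  have hMN : (N : ℝ) ≤ M := by
    rw [hM]
    push_cast
    have : (0 : ℝ) ≤ C := Nat.cast_nonneg _
    have : (0 : ℝ) ≤ cP := Nat.cast_nonneg _
    nlinarith
  have hT0 : (0 : ℝ) ≤ T := Nat.cast_nonneg _
  have hBR' : (B.card : ℝ) ≤ R := by exact_mod_cast hBR
  have h3 : ∑ t ∈ Icc 1 T, ‖∑ ξ ∈ range M, (U ξ * G ξ) *
      ee ((ξ : ℝ) * (((P.eval (t : ℤ) : ℤ) : ℝ) / M))‖ ^ 2 ≤
      δ * T * ((M * (2 * (C * N) + 1)) * (M * N)) + T * R * ((ε * N) ^ 2 * (M * N)) := by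
    refine h1.trans (add_le_add ?_ ?_)
    · exact mul_le_mul_of_nonneg_left hA1 (by positivity)
    · refine mul_le_mul (mul_le_mul_of_nonneg_left hBR' hT0) hA2 ?_ (by positivity)
      exact Finset.sum_nonneg fun ξ _ => by positivity
  calc (1 / (M : ℝ) ^ 2) * ∑ t ∈ Icc 1 T, ‖∑ ξ ∈ range M, (U ξ * G ξ) *
        ee ((ξ : ℝ) * (((P.eval (t : ℤ) : ℤ) : ℝ) / M))‖ ^ 2
      ≤ (1 / (M : ℝ) ^ 2) * (δ * T * ((M * (2 * (C * N) + 1)) * (M * N)) +
        T * R * ((ε * N) ^ 2 * (M * N))) := mul_le_mul_of_nonneg_left h3 (by positivity)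
    _ = δ * T * ((2 * (C * N) + 1) * N) + T * R * (ε * N) ^ 2 * (N / M) := by
      field_simp
    _ ≤ δ * T * ((2 * C + 1) * N * N) + T * R * (ε * N) ^ 2 * 1 := by
      refine add_le_add ?_ ?_
      · refine mul_le_mul_of_nonneg_left ?_ (by positivity)
        refine mul_le_mul_of_nonneg_right ?_ hN0.le
        have : (1 : ℝ) ≤ N := by exact_mod_cast hN
        nlinarith
      · refine mul_le_mul_of_nonneg_left ?_ (by positivity)
        exact (div_le_one hM0).2 hMN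
    _ = (δ * (2 * C + 1) + R * ε ^ 2) * (N : ℝ) ^ 2 * T := by ring

theorem pf_PW (hWK : Pool.Agent.H98.KS.T_WK) : StatementPW := by
  intro P C η hP hη
  obtain ⟨cP, hcP⟩ := eval_le P
  set δ : ℝ := min 1 (η / (2 * (2 * C + 1))) with hδ
  have hδ0 : 0 < δ := lt_min one_pos (by positivity)
  have hδ1 : δ ≤ 1 := min_le_left _ _
  have hδη : δ * (2 * C + 1) ≤ η / 2 := by
    have h1 : δ ≤ η / (2 * (2 * C + 1)) := min_le_right _ _
    calc δ * (2 * C + 1) ≤ η / (2 * (2 * C + 1)) * (2 * C + 1) :=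
          mul_le_mul_of_nonneg_right h1 (by positivity)
      _ = η / 2 := by field_simp
  obtain ⟨R, hR⟩ := weyl_count hWK P hP ((2 * (C + cP + 1) + 1) * 2 ^ P.natDegree) δ hδ0 hδ1
  set ε : ℝ := min 1 (η / (2 * (R + 1))) with hε
  have hε0 : 0 < ε := lt_min one_pos (by positivity)
  have hεη : R * ε ^ 2 ≤ η / 2 := by
    have h1 : ε ≤ η / (2 * (R + 1)) := min_le_right _ _
    have h2 : ε ^ 2 ≤ ε := by
      rw [sq]
      exact mul_le_of_le_one_left hε0.le (min_le_left _ _)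
    have h3 : (0 : ℝ) ≤ R := Nat.cast_nonneg _
    calc R * ε ^ 2 ≤ (R + 1) * (η / (2 * (R + 1))) := by
          refine mul_le_mul (by linarith) (h2.trans h1) (by positivity) (by positivity)
      _ = η / 2 := by field_simp
  refine ⟨ε, hε0, 1, ?_⟩
  intro N hN F u hF hu hus huθ
  set d : ℕ := P.natDegree with hd
  have hN0 : (0 : ℝ) ≤ N := Nat.cast_nonneg _
  have hN1 : (1 : ℝ) ≤ N := by exact_mod_cast hN
  set r : ℝ := (N : ℝ) ^ ((1 : ℝ) / d) with hr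
  have hr0 : 0 ≤ r := Real.rpow_nonneg hN0 _
  have hrd : r ^ d = N := by
    rw [hr, one_div]
    exact Real.rpow_inv_natCast_pow hN0 hP.ne'
  have hr1 : 1 ≤ r := Real.one_le_rpow hN1 (by positivity)
  set T : ℕ := ⌊r⌋₊ with hT
  have hTr : (T : ℝ) ≤ r := Nat.floor_le hr0
  have hT1 : 1 ≤ T := by
    rw [hT, Nat.one_le_floor_iff]
    exact hr1
  have hTd : T ^ d ≤ N := by
    have h1 : (T : ℝ) ^ d ≤ N := by
      rw [← hrd]
      exact pow_le_pow_left₀ (Nat.cast_nonneg _) hTr d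
    exact_mod_cast h1
  have hNT : N ≤ 2 ^ d * T ^ d := by
    have h1 : r ≤ 2 * T := by
      have h2 := (Nat.lt_floor_add_one r).le
      have h3 : (1 : ℝ) ≤ T := by exact_mod_cast hT1
      rw [← hT] at h2
      linarith
    have h2 : (N : ℝ) ≤ (2 * T) ^ d := by
      rw [← hrd]
      exact pow_le_pow_left₀ hr0 h1 d
    rw [mul_pow] at h2
    exact_mod_cast h2
  have hset : (Finset.Icc 1 N).filter (fun t : ℕ => t ^ d ≤ N) = Icc 1 T := by
    ext t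
    rw [Finset.mem_filter, Finset.mem_Icc, Finset.mem_Icc]
    constructor
    · rintro ⟨⟨h1, -⟩, h2⟩
      refine ⟨h1, ?_⟩
      rw [hT, Nat.le_floor_iff hr0]
      have h3 : (t : ℝ) ^ d ≤ r ^ d := by
        rw [hrd]
        exact_mod_cast h2
      exact le_of_pow_le_pow_left₀ hP.ne' hr0 h3
    · rintro ⟨h1, h2⟩
      have h3 : t ^ d ≤ N := (Nat.pow_le_pow_left h2 _).trans hTd
      exact ⟨⟨h1, (Nat.le_self_pow hP.ne' t).trans h3⟩, h3⟩
  rw [hset]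
  have key := bound P C cP R N T (2 * (C + cP + 1) * N + 1) δ ε hcP rfl hN hTd hδ0.le
    (hR (2 * (C + cP + 1) * N + 1) T (by omega) hT1 (by
      calc 2 * (C + cP + 1) * N + 1 ≤ (2 * (C + cP + 1) + 1) * N := by nlinarith
        _ ≤ (2 * (C + cP + 1) + 1) * (2 ^ d * T ^ d) := Nat.mul_le_mul_left _ hNT
        _ = (2 * (C + cP + 1) + 1) * 2 ^ d * T ^ d := by ring)) F u hF hu hus huθ
  refine key.trans ?_
  have h4 : δ * (2 * C + 1) + R * ε ^ 2 ≤ η := by linarith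
  calc (δ * (2 * C + 1) + R * ε ^ 2) * (N : ℝ) ^ 2 * T ≤ η * (N : ℝ) ^ 2 * T := by
        refine mul_le_mul_of_nonneg_right (mul_le_mul_of_nonneg_right h4 (by positivity))
          (Nat.cast_nonneg _)
    _ ≤ η * (N : ℝ) ^ 2 * r := mul_le_mul_of_nonneg_left hTr (by positivity)

end Pool.Agent.H19.DP.PW
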