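import Pool.Agent.H31.DP.Targets2


/-!
Module PW of the project DP, part 0: finite Fourier analysis.
-/

set_option autoImplicit false

open Finset

namespace Pool.Agent.H19.DP.PW

open Pool.Agent.H31.DP

theorem ee_add (x y : ℝ) : ee (x + y) = ee x * ee y := by
  unfold ee
  rw [← Complex.exp_add]
  congr 1
  push_cast
  ring

theorem norm_ee (x : ℝ) : ‖ee x‖ = 1 := by
  unfold ee
  have h : (2 * Real.pi * Complex.I * x : ℂ) = ((2 * Real.pi * x : ℝ) : ℂ) * Complex.I := by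
    push_cast
    ring
  rw [h]
  exact Complex.norm_exp_ofReal_mul_I _

theorem conj_ee (x : ℝ) : (starRingEnd ℂ) (ee x) = ee (-x) := by
  unfold ee
  rw [← Complex.exp_conj]
  congr 1
  rw [map_mul, map_mul, map_mul, Complex.conj_ofReal, Complex.conj_ofReal, Complex.conj_I,
    map_ofNat]
  push_cast
  ring

theorem ee_int (j : ℤ) : ee (j : ℝ) = 1 := by
  unfold ee
  have h : (2 * Real.pi * Complex.I * ((j : ℝ) : ℂ) : ℂ) = j * (2 * Real.pi * Complex.I) := by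
    push_cast
    ring
  rw [h]
  exact Complex.exp_int_mul_two_pi_mul_I j

theorem ee_nat_mul (n : ℕ) (x : ℝ) : ee (n * x) = ee x ^ n := by
  unfold ee
  rw [← Complex.exp_nat_mul]
  congr 1
  push_cast
  ring

theorem ee_ne (M : ℕ) (hM : 0 < M) (j : ℤ) (h : ¬ (M : ℤ) ∣ j) : ee ((j : ℝ) / M) ≠ 1 := by
  intro he
  unfold ee at he
  rw [Complex.exp_eq_one_iff] at he
  obtain ⟨n, hn⟩ := he
  have hM' : (M : ℂ) ≠ 0 := by exact_mod_cast hM.ne'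
  have hpi : (Real.pi : ℂ) ≠ 0 := by exact_mod_cast Real.pi_ne_zero
  have h1 : (2 * Real.pi * Complex.I : ℂ) ≠ 0 :=
    mul_ne_zero (mul_ne_zero two_ne_zero hpi) Complex.I_ne_zero
  rw [mul_comm (n : ℂ)] at hn
  have h2 := mul_left_cancel₀ h1 hn
  push_cast at h2
  rw [div_eq_iff hM'] at h2
  apply h
  refine ⟨n, ?_⟩
  have h3 : ((j : ℤ) : ℂ) = ((n * M : ℤ) : ℂ) := by
    push_cast
    exact h2
  rw [mul_comm]
  exact_mod_cast h3

theorem orth (M : ℕ) (hM : 0 < M) (j : ℤ) :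
    ∑ ξ ∈ range M, ee ((j : ℝ) * (ξ / M)) = if (M : ℤ) ∣ j then (M : ℂ) else 0 := by
  have hM' : (M : ℝ) ≠ 0 := by exact_mod_cast hM.ne'
  have h0 : ∀ ξ : ℕ, ee ((j : ℝ) * (ξ / M)) = ee ((j : ℝ) / M) ^ ξ := by
    intro ξ
    rw [← ee_nat_mul]
    congr 1
    ring
  simp only [h0]
  split_ifs with h
  · obtain ⟨n, rfl⟩ := h
    have h1 : ee (((M * n : ℤ) : ℝ) / M) = 1 := by
      have e : ((M * n : ℤ) : ℝ) / M = (n : ℝ) := by
        push_cast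
        field_simp
      rw [e, ee_int]
    rw [h1]
    simp
  · rw [geom_sum_eq (ee_ne M hM j h), ← ee_nat_mul]
    have e : (M : ℝ) * ((j : ℝ) / M) = (j : ℝ) := by field_simp
    rw [e, ee_int, sub_self, zero_div]

/-- The inequality of Bessel for the characters modulo `M`. -/
theorem parseval {ι : Type} (M : ℕ) (hM : 0 < M) (S : Finset ι) (v : ι → ℤ)
    (hS : ∀ i ∈ S, ∀ j ∈ S, (M : ℤ) ∣ v i - v j → i = j) (a : ι → ℂ) (ha : ∀ m, ‖a m‖ ≤ 1)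
    (s : ℤ) (hs : s = 1 ∨ s = -1) :
    ∑ ξ ∈ range M, ‖∑ m ∈ S, a m * ee ((v m : ℝ) * (s * (ξ / M)))‖ ^ 2 ≤ M * S.card := by
  classical
  have h1 : ∀ ξ : ℕ, ((‖∑ m ∈ S, a m * ee ((v m : ℝ) * (s * (ξ / M)))‖ ^ 2 : ℝ) : ℂ) =
      ∑ m ∈ S, ∑ m' ∈ S, a m * (starRingEnd ℂ) (a m') *
        ee (((s * (v m - v m') : ℤ) : ℝ) * (ξ / M)) := by
    intro ξ
    rw [← Complex.normSq_eq_norm_sq, ← Complex.mul_conj, map_sum, Finset.sum_mul_sum]
    refine Finset.sum_congr rfl fun m _ => Finset.sum_congr rfl fun m' _ => ?_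
    rw [map_mul, conj_ee]
    have e : (((s * (v m - v m') : ℤ) : ℝ) * (ξ / M)) =
        (v m : ℝ) * (s * (ξ / M)) + -((v m' : ℝ) * (s * (ξ / M))) := by
      push_cast
      ring
    rw [e, ee_add]
    ring
  have h2 : ((∑ ξ ∈ range M, ‖∑ m ∈ S, a m * ee ((v m : ℝ) * (s * (ξ / M)))‖ ^ 2 : ℝ) : ℂ) =
      ((M * ∑ m ∈ S, ‖a m‖ ^ 2 : ℝ) : ℂ) := by
    rw [Complex.ofReal_sum, Finset.sum_congr rfl (fun ξ _ => h1 ξ), Finset.sum_comm,
      Complex.ofReal_mul, Complex.ofReal_natCast, Complex.ofReal_sum, Finset.mul_sum]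
    refine Finset.sum_congr rfl fun m hm => ?_
    rw [Finset.sum_comm]
    have h3 : ∀ m' ∈ S, ∑ ξ ∈ range M, a m * (starRingEnd ℂ) (a m') *
        ee (((s * (v m - v m') : ℤ) : ℝ) * (ξ / M)) =
        if m' = m then (M : ℂ) * (a m * (starRingEnd ℂ) (a m')) else 0 := by
      intro m' hm'
      rw [← Finset.mul_sum, orth M hM]
      have hiff : (M : ℤ) ∣ s * (v m - v m') ↔ m' = m := by
        constructor
        · intro h
          have h4 : (M : ℤ) ∣ v m - v m' := by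
            rcases hs with rfl | rfl
            · rwa [one_mul] at h
            · rw [neg_one_mul] at h
              exact (Int.dvd_neg).1 h
          exact (hS m hm m' hm' h4).symm
        · rintro rfl
          rw [sub_self, mul_zero]
          exact dvd_zero _
      simp only [hiff]
      split_ifs
      · ring
      · ring
    rw [Finset.sum_congr rfl h3, Finset.sum_ite_eq', if_pos hm, Complex.mul_conj,
      Complex.normSq_eq_norm_sq]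
  have h3 : ∑ ξ ∈ range M, ‖∑ m ∈ S, a m * ee ((v m : ℝ) * (s * (ξ / M)))‖ ^ 2 =
      M * ∑ m ∈ S, ‖a m‖ ^ 2 := by exact_mod_cast h2
  rw [h3]
  refine mul_le_mul_of_nonneg_left ?_ (Nat.cast_nonneg _)
  calc ∑ m ∈ S, ‖a m‖ ^ 2 ≤ ∑ _m ∈ S, (1 : ℝ) :=
        Finset.sum_le_sum fun m _ => pow_le_one₀ (norm_nonneg _) (ha m)
    _ = S.card := by simp

theorem quad (M : ℕ) (A : ℕ → ℂ) (S : Finset ℕ) (g : ℕ → ℝ) :
    ∑ t ∈ S, ‖∑ ξ ∈ range M, A ξ * ee ((ξ : ℝ) * g t)‖ ^ 2 ≤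
      ∑ ξ ∈ range M, ∑ ζ ∈ range M, ‖A ξ‖ * ‖A ζ‖ * ‖∑ t ∈ S, ee (((ξ : ℝ) - ζ) * g t)‖ := by
  have h1 : ((∑ t ∈ S, ‖∑ ξ ∈ range M, A ξ * ee ((ξ : ℝ) * g t)‖ ^ 2 : ℝ) : ℂ) =
      ∑ ξ ∈ range M, ∑ ζ ∈ range M, A ξ * (starRingEnd ℂ) (A ζ) *
        ∑ t ∈ S, ee (((ξ : ℝ) - ζ) * g t) := by
    rw [Complex.ofReal_sum]
    simp only [Finset.mul_sum]
    rw [Finset.sum_congr rfl (fun ξ _ => Finset.sum_comm), Finset.sum_comm]
    refine Finset.sum_congr rfl fun t _ => ?_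
    rw [← Complex.normSq_eq_norm_sq, ← Complex.mul_conj, map_sum, Finset.sum_mul_sum]
    refine Finset.sum_congr rfl fun ξ _ => Finset.sum_congr rfl fun ζ _ => ?_
    rw [map_mul, conj_ee]
    have e : ((ξ : ℝ) - ζ) * g t = (ξ : ℝ) * g t + -((ζ : ℝ) * g t) := by ring
    rw [e, ee_add]
    ring
  have h2 : ∑ t ∈ S, ‖∑ ξ ∈ range M, A ξ * ee ((ξ : ℝ) * g t)‖ ^ 2 =
      ‖∑ ξ ∈ range M, ∑ ζ ∈ range M, A ξ * (starRingEnd ℂ) (A ζ) *
        ∑ t ∈ S, ee (((ξ : ℝ) - ζ) * g t)‖ := by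
    rw [← h1, Complex.norm_real, Real.norm_eq_abs, abs_of_nonneg]
    exact Finset.sum_nonneg fun t _ => by positivity
  rw [h2]
  refine (norm_sum_le _ _).trans (Finset.sum_le_sum fun ξ _ => ?_)
  refine (norm_sum_le _ _).trans (Finset.sum_le_sum fun ζ _ => ?_)
  rw [norm_mul, norm_mul, RCLike.norm_conj]

theorem schur (M : ℕ) (A : ℕ → ℝ) (hA : ∀ ξ, 0 ≤ A ξ) (W : ℤ → ℝ) (B : Finset ℤ) (δ τ : ℝ)
    (hδ : 0 ≤ δ) (hτ : 0 ≤ τ) (hW : ∀ z : ℤ, |z| < M → W z ≤ δ ∨ z ∈ B) (hWτ : ∀ z, W z ≤ τ) :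
    ∑ ξ ∈ range M, ∑ ζ ∈ range M, A ξ * A ζ * W ((ξ : ℤ) - ζ) ≤
      δ * (∑ ξ ∈ range M, A ξ) ^ 2 + τ * B.card * ∑ ξ ∈ range M, A ξ ^ 2 := by
  classical
  have h1 : ∀ ξ ∈ range M, ∀ ζ ∈ range M, A ξ * A ζ * W ((ξ : ℤ) - ζ) ≤
      δ * (A ξ * A ζ) + τ * (if ((ξ : ℤ) - ζ) ∈ B then (A ξ ^ 2 + A ζ ^ 2) / 2 else 0) := by
    intro ξ hξ ζ hζ
    rw [Finset.mem_range] at hξ hζ
    have h2 : |((ξ : ℤ) - ζ)| < M := by
      rw [abs_lt]
      constructor <;> omega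
    have h3 := mul_nonneg (hA ξ) (hA ζ)
    split_ifs with hB
    · have h4 : A ξ * A ζ ≤ (A ξ ^ 2 + A ζ ^ 2) / 2 := by nlinarith [sq_nonneg (A ξ - A ζ)]
      calc A ξ * A ζ * W ((ξ : ℤ) - ζ) ≤ A ξ * A ζ * τ := mul_le_mul_of_nonneg_left (hWτ _) h3
        _ ≤ (A ξ ^ 2 + A ζ ^ 2) / 2 * τ := mul_le_mul_of_nonneg_right h4 hτ
        _ ≤ δ * (A ξ * A ζ) + τ * ((A ξ ^ 2 + A ζ ^ 2) / 2) := by
          have := mul_nonneg hδ h3
          linarith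
    · have h4 := (hW _ h2).resolve_right hB
      rw [mul_zero, add_zero, mul_comm δ]
      exact mul_le_mul_of_nonneg_left h4 h3
  refine (Finset.sum_le_sum fun ξ hξ => Finset.sum_le_sum fun ζ hζ => h1 ξ hξ ζ hζ).trans ?_
  simp only [Finset.sum_add_distrib, ← Finset.mul_sum]
  refine add_le_add (le_of_eq ?_) ?_
  · rw [sq, Finset.sum_mul_sum]
    simp only [Finset.mul_sum]
  · rw [mul_assoc]
    refine mul_le_mul_of_nonneg_left ?_ hτ
    have h5 : ∀ ξ ∈ range M, ∀ ζ ∈ range M,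
        (if ((ξ : ℤ) - ζ) ∈ B then (A ξ ^ 2 + A ζ ^ 2) / 2 else 0) =
          (if ((ξ : ℤ) - ζ) ∈ B then A ξ ^ 2 / 2 else 0) +
            (if ((ξ : ℤ) - ζ) ∈ B then A ζ ^ 2 / 2 else 0) := by
      intro ξ _ ζ _
      split_ifs
      · ring
      · ring
    rw [Finset.sum_congr rfl (fun ξ hξ => Finset.sum_congr rfl (fun ζ hζ => h5 ξ hξ ζ hζ))]
    simp only [Finset.sum_add_distrib]
    have h6 : ∑ ξ ∈ range M, ∑ ζ ∈ range M,
        (if ((ξ : ℤ) - ζ) ∈ B then A ξ ^ 2 / 2 else 0) ≤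
          (B.card : ℝ) * ∑ ξ ∈ range M, A ξ ^ 2 / 2 := by
      rw [Finset.mul_sum]
      refine Finset.sum_le_sum fun ξ _ => ?_
      rw [← Finset.sum_filter, Finset.sum_const, nsmul_eq_mul]
      refine mul_le_mul_of_nonneg_right ?_ (by positivity)
      exact_mod_cast Finset.card_le_card_of_injOn (fun ζ : ℕ => (ξ : ℤ) - ζ)
        (fun ζ hζ => (Finset.mem_filter.1 hζ).2) (fun ζ _ ζ' _ h => by
          simp only at h
          omega)
    have h7 : ∑ ξ ∈ range M, ∑ ζ ∈ range M,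
        (if ((ξ : ℤ) - ζ) ∈ B then A ζ ^ 2 / 2 else 0) ≤
          (B.card : ℝ) * ∑ ξ ∈ range M, A ξ ^ 2 / 2 := by
      rw [Finset.sum_comm, Finset.mul_sum]
      refine Finset.sum_le_sum fun ζ _ => ?_
      rw [← Finset.sum_filter, Finset.sum_const, nsmul_eq_mul]
      refine mul_le_mul_of_nonneg_right ?_ (by positivity)
      exact_mod_cast Finset.card_le_card_of_injOn (fun ξ : ℕ => (ξ : ℤ) - ζ)
        (fun ξ hξ => (Finset.mem_filter.1 hξ).2) (fun ζ _ ζ' _ h => by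
          simp only at h
          omega)
    have h8 : ∑ ξ ∈ range M, A ξ ^ 2 / 2 = (∑ ξ ∈ range M, A ξ ^ 2) / 2 := by
      rw [Finset.sum_div]
    rw [h8] at h6 h7
    linarith

end Pool.Agent.H19.DP.PW
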